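import Pool.Agent.Lib.MP_eac85a_an.Core

/-!
In dimension five no normal vector has full support.
-/

namespace Pool.Agent.Lib.MP_eac85a_an

open Finset Module

/-- the scalar part: the fourth column makes the weights of the third an affine function -/
lemma affine5 {ρ π m y : Fin 4 → ℝ} {κ : ℝ} (hm : ∀ i, m i ≠ 0) (hρ0 : ∀ i, ρ i ≠ 0)
    (hne : ρ 0 ≠ π 0) (hκ : κ ≠ 0)
    (h : ∀ i, (1 - π i) * ρ i = κ * ((1 - ρ i) * π i)) (h23 : ρ 2 ≠ ρ 3)
    (s1 : ∑ i, m i = 0) (s2 : ∑ i, m i * ρ i = 0) (s3 : ∑ i, m i * π i = 0)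
    (s4 : ∑ i, m i * y i = 0) (s5 : ∑ i, m i * y i * π i = 0) (y0 : y 0 = 1) (y1 : y 1 = 0) :
    y 2 * (ρ 0 - ρ 1) = ρ 2 - ρ 1 ∧ y 3 * (ρ 0 - ρ 1) = ρ 3 - ρ 1 := by
  have hκ1 : 1 - κ ≠ 0 := fun e => hne (by
    have := h 0
    rw [← sub_eq_zero.1 e] at this
    linear_combination this)
  have hD : ∀ i, π i * (κ + (1 - κ) * ρ i) = ρ i := fun i => by linear_combination -h i
  have hD0 : ∀ i, κ + (1 - κ) * ρ i ≠ 0 := fun i e => hρ0 i (by rw [← hD i, e, mul_zero])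
  obtain ⟨N, hN⟩ : ∃ N : Fin 4 → ℝ, ∀ i, m i = N i * (κ + (1 - κ) * ρ i) :=
    ⟨fun i => m i / (κ + (1 - κ) * ρ i), fun i => (div_mul_cancel₀ _ (hD0 i)).symm⟩
  have hN0 : ∀ i, N i ≠ 0 := fun i e => hm i (by rw [hN i, e, zero_mul])
  have hπ : ∀ i, m i * π i = N i * ρ i := fun i => by rw [hN i, mul_assoc, mul_comm _ (π i), hD i]
  simp only [mul_right_comm _ _ (π _), hπ] at s3 s5
  simp only [Fin.sum_univ_four, hN, y0, y1] at s1 s2 s3 s4 s5
  have t0 : N 0 + N 1 + N 2 + N 3 = 0 :=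
    mul_left_cancel₀ hκ (by linear_combination s1 - (1 - κ) * s3)
  have t2 : N 0 * ρ 0 ^ 2 + N 1 * ρ 1 ^ 2 + N 2 * ρ 2 ^ 2 + N 3 * ρ 3 ^ 2 = 0 :=
    mul_left_cancel₀ hκ1 (by linear_combination s2 - κ * s3)
  have t3 : N 0 + N 2 * y 2 + N 3 * y 3 = 0 :=
    mul_left_cancel₀ hκ (by linear_combination s4 - (1 - κ) * s5)
  have d := sub_ne_zero.2 h23
  exact ⟨mul_left_cancel₀ (mul_ne_zero d (hN0 2)) (by
      linear_combination (ρ 0 - ρ 1) * s5 - t2 + ρ 1 * s3 - ρ 3 * ((ρ 0 - ρ 1) * t3 - s3 + ρ 1 * t0)),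
    mul_left_cancel₀ (mul_ne_zero d (hN0 3)) (by
      linear_combination -((ρ 0 - ρ 1) * s5 - t2 + ρ 1 * s3) +
        ρ 2 * ((ρ 0 - ρ 1) * t3 - s3 + ρ 1 * t0))⟩

section
variable {g h : Fin 4 → ((Fin 5 → ℝ) →ₗ[ℝ] ℝ)}
  (sp : ∀ (A B : Finset (Fin 4)) (u : Fin 5 → ℝ), A.card + B.card = 5 → (∀ i ∈ A, g i u = 0) →
    (∀ k ∈ B, h k u = 0) → u = 0)
include sp

lemma half {b : Fin 5 → ℝ} (hb0 : b ≠ 0) (hb : ∀ i, g i b = 0) :
    (∀ k, h k b ≠ 0) ∧ ∃ a : Fin 4 → (Fin 5 → ℝ), (∀ i i', i' ≠ i → g i' (a i) = 0) ∧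
      (∀ i, g i (a i) ≠ 0) ∧ (∀ i, h 1 (a i) = 0) ∧ (∀ i, h 0 (a i) = h 0 b) ∧
      (∀ i k k', k ≠ k' → h k (a i) / h k b ≠ h k' (a i) / h k' b) ∧
      (∀ i i', i ≠ i' → h 2 (a i) ≠ h 2 (a i')) ∧
      ∀ v, v = ∑ i, (g i v / g i (a i)) • a i + (h 1 v / h 1 b) • b := by
  have h1 : ∀ k, h k b ≠ 0 := fun k e =>
    hb0 (sp univ {k} b (by simp) (fun i _ => hb i) (by simpa using e))
  have ex : ∀ i : Fin 4, ∃ a : Fin 5 → ℝ, (∀ i', i' ≠ i → g i' a = 0) ∧ h 1 a = 0 ∧ h 0 a = h 0 b := by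
    intro i
    obtain ⟨x, x0, hx⟩ := exists_common_zero (n := 5) (fun i' => if i' = i then h 1 else g i')
      (by simp)
    have a1 : ∀ i', i' ≠ i → g i' x = 0 := fun i' e => by simpa [e] using hx i'
    have a2 : h 1 x = 0 := by simpa using hx i
    have a3 : h 0 x ≠ 0 := fun e => x0 (sp (univ.erase i) {0, 1} x (by simp)
      (fun i' hi => a1 i' (mem_erase.1 hi).1) (by simp [e, a2]))
    exact ⟨(h 0 b / h 0 x) • x, fun i' e => by simp [a1 i' e], by simp [a2], by simp [a3]⟩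
  choose a a1 a2 a3 using ex
  have a4 : ∀ i, g i (a i) ≠ 0 := fun i e => h1 0 (by
    rw [← a3 i, sp univ {1} (a i) (by simp) (fun i' _ => by
      by_cases c : i' = i; exacts [c ▸ e, a1 i i' c]) (by simp [a2]), map_zero])
  refine ⟨h1, a, a1, a4, a2, a3, fun i k k' hk e => a4 i ?_, fun i i' hi e => a4 i ?_, fun v => ?_⟩
  · have := sp (univ.erase i) {k, k'} (a i - (h k (a i) / h k b) • b) (by simp [card_pair hk])
      (fun i' hi => by simp [a1 i i' (mem_erase.1 hi).1, hb]) (by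
        simp only [mem_insert, mem_singleton, forall_eq_or_imp, forall_eq, map_sub, map_smul,
          smul_eq_mul]
        exact ⟨by rw [div_mul_cancel₀ _ (h1 k), sub_self],
          by rw [e, div_mul_cancel₀ _ (h1 k'), sub_self]⟩)
    rw [sub_eq_zero.1 this]
    simp [hb]
  · have := sp ((univ.erase i).erase i') {0, 1, 2} (a i - a i')
      (by rw [card_erase_of_mem (by simp [hi.symm])]; simp)
      (fun l hl => by
        simp only [mem_erase] at hl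
        simp [a1 i l hl.2.1, a1 i' l hl.1]) (by simp [a2, a3, e])
    rw [sub_eq_zero.1 this]
    exact a1 i' i hi
  · refine sub_eq_zero.1 (sp univ {1} _ (by simp) (fun l _ => ?_) ?_)
    · rw [map_sub, map_add, map_sum, sum_eq_single l (fun i _ e => by simp [a1 i l e.symm]) (by simp)]
      simp [hb, a4]
    · simp [a2, h1]

lemma no_full_aux
    (sq : ∀ i k x y, g i x ≠ 0 → h k y ≠ 0 → (∀ l, l ≠ i → g l x = 0) → h k x = 0 →
      (∀ l, l ≠ k → h l y = 0) → g i y = 0 → ∃ ν : ℝ, ν ≠ 0 ∧ y * y = ν • (x * x))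
    {b b' : Fin 5 → ℝ} (hb : ∀ i, g i b = 0) (full : ∀ j, b j ≠ 0) (hb0' : b' ≠ 0)
    (hb' : ∀ k, h k b' = 0) {μ : ℝ} (hμ : b' * b' = μ • (b * b)) : False := by
  obtain ⟨n1, a, a1, a4, a2, a3, a5, a6, a7⟩ := half sp (fun e => full 0 (congrFun e 0)) hb
  obtain ⟨n2, c, c1, c4, c2, c3, c5, -, -⟩ := half (g := h) (h := g)
    (fun A B u e x y => sp B A u (by omega) y x) hb0' hb'
  obtain ⟨r, hr⟩ : ∃ r : Fin 4 → Fin 4 → ℝ, ∀ i k, r i k = h k (a i) / h k b := ⟨_, fun _ _ => rfl⟩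
  obtain ⟨t, ht⟩ : ∃ t : Fin 4 → Fin 4 → ℝ, ∀ i k, t i k = g i (c k) / g i b' := ⟨_, fun _ _ => rfl⟩
  have r0 : ∀ i, r i 0 = 1 := fun i => by rw [hr, a3, div_self (n1 0)]
  have r1 : ∀ i, r i 1 = 0 := fun i => by rw [hr, a2, zero_div]
  have t0 : ∀ k, t 0 k = 1 := fun k => by rw [ht, c3, div_self (n2 0)]
  have t1 : ∀ k, t 1 k = 0 := fun k => by rw [ht, c2, zero_div]
  simp only [← hr] at a5
  simp only [← ht] at c5
  have a8 : ∀ i i', i ≠ i' → r i 2 ≠ r i' 2 := fun i i' e x => a6 i i' e (by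
    rwa [hr, hr, div_left_inj' (n1 2)] at x)
  choose ν ν0 hν using fun i k => sq i k (a i - r i k • b) (c k - t i k • b')
    (by simpa [hb] using a4 i) (by simpa [hb'] using c4 k) (fun l e => by simp [hb, a1 i l e])
    (by simp [hr, n1]) (fun l e => by simp [hb', c1 k l e]) (by simp [ht, n2])
  obtain ⟨E, hE⟩ : ∃ E : Fin 4 → Fin 4 → Fin 5 → ℝ,
    ∀ i k, E i k = (a i - r i k • b) * (a i - r i k • b) := ⟨_, fun _ _ => rfl⟩
  simp only [← hE] at hν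
  have row : ∀ L : (Fin 5 → ℝ) →ₗ[ℝ] ℝ, L (b * b) = 0 → ∀ i k,
      L (E i k) = r i k * L (E i 0) + (1 - r i k) * L (E i 1) := fun L hL i k => by
    have : E i k = r i k • E i 0 + (1 - r i k) • E i 1 + (r i k ^ 2 - r i k) • (b * b) := by
      funext j
      simp only [hE, r0, r1, Pi.add_apply, Pi.mul_apply, Pi.sub_apply, Pi.smul_apply, smul_eq_mul]
      ring
    rw [this]
    simp [hL]
  have col : ∀ L : (Fin 5 → ℝ) →ₗ[ℝ] ℝ, L (b * b) = 0 → ∀ i k, ν i k * L (E i k) =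
      t i k * ν 0 k * L (E 0 k) + (1 - t i k) * ν 1 k * L (E 1 k) := fun L hL i k => by
    have : ν i k • E i k = t i k • ν 0 k • E 0 k + (1 - t i k) • ν 1 k • E 1 k +
        (t i k ^ 2 - t i k) • μ • (b * b) := by
      rw [← hν, ← hν, ← hν, ← hμ]
      funext j
      simp only [t0, t1, Pi.add_apply, Pi.mul_apply, Pi.sub_apply, Pi.smul_apply, smul_eq_mul]
      ring
    have := congrArg L this
    simpa [hL, mul_assoc] using this
  have kill : ∀ L : (Fin 5 → ℝ) →ₗ[ℝ] ℝ, L (b * b) = 0 → (∀ i, L (E i 1) = L (E i 0)) → L = 0 := by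
    intro L hL hi
    have e1 : ∀ i, L (a i * b) = 0 := fun i => by
      have : (2 : ℝ) • (a i * b) = E i 1 - E i 0 + b * b := by
        funext j
        simp only [hE, r0, r1, Pi.add_apply, Pi.mul_apply, Pi.sub_apply, Pi.smul_apply, smul_eq_mul]
        ring
      have := congrArg L this
      simpa [hL, hi] using this
    refine LinearMap.ext fun v => ?_
    have : v = (v / b) * b := funext fun j => (div_mul_cancel₀ _ (full j)).symm
    rw [this, a7 (v / b), add_mul, sum_mul]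
    simp [hL, e1]
  have exL : ∀ s1 s2 s3 s4 : ℝ, ∃ L : (Fin 5 → ℝ) →ₗ[ℝ] ℝ, L (b * b) = 0 ∧ L (E 0 0) = s1 ∧
      L (E 0 1) = s2 ∧ L (E 1 0) = s3 ∧ L (E 1 1) = s4 := by
    let Φ : ((Fin 5 → ℝ) →ₗ[ℝ] ℝ) →ₗ[ℝ] (Fin 5 → ℝ) :=
      LinearMap.pi fun s => LinearMap.applyₗ (![b * b, E 0 0, E 0 1, E 1 0, E 1 1] s)
    have inj : Function.Injective Φ := (injective_iff_map_eq_zero Φ).2 fun L e => by
      have e0 : L (b * b) = 0 := congrFun e 0
      have e1 : L (E 0 0) = 0 := congrFun e 1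
      have e2 : L (E 0 1) = 0 := congrFun e 2
      have e3 : L (E 1 0) = 0 := congrFun e 3
      have e4 : L (E 1 1) = 0 := congrFun e 4
      refine kill L e0 fun i => ?_
      have u0 := col L e0 i 0
      have u1 := col L e0 i 1
      simp only [e1, e2, e3, e4, mul_zero, add_zero, mul_eq_zero, ν0, false_or] at u0 u1
      rw [u0, u1]
    intro s1 s2 s3 s4
    obtain ⟨L, e⟩ := (LinearMap.injective_iff_surjective_of_finrank_eq_finrank (by simp)).1 inj ![0, s1, s2, s3, s4]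
    exact ⟨L, congrFun e 0, congrFun e 1, congrFun e 2, congrFun e 3, congrFun e 4⟩
  have eqs : ∀ s1 s2 s3 s4 : ℝ, ∀ i k,
      ν i k * (r i k * ((t i 0 * ν 0 0 * s1 + (1 - t i 0) * ν 1 0 * s3) / ν i 0) +
        (1 - r i k) * ((t i 1 * ν 0 1 * s2 + (1 - t i 1) * ν 1 1 * s4) / ν i 1)) =
      t i k * ν 0 k * (r 0 k * s1 + (1 - r 0 k) * s2) +
        (1 - t i k) * ν 1 k * (r 1 k * s3 + (1 - r 1 k) * s4) := by
    intro s1 s2 s3 s4 i k
    obtain ⟨L, hL, rfl, rfl, rfl, rfl⟩ := exL s1 s2 s3 s4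
    rw [← col L hL, ← col L hL, ← row L hL, ← row L hL, ← col L hL, row L hL i k,
      mul_div_cancel_left₀ _ (ν0 i 0), mul_div_cancel_left₀ _ (ν0 i 1)]
  obtain ⟨G, hG⟩ : ∃ G : Fin 4 → Fin 4 → ℝ, ∀ i k, G i k = t i k * ν 0 k / ν i k := ⟨_, fun _ _ => rfl⟩
  obtain ⟨H, hH⟩ : ∃ H : Fin 4 → Fin 4 → ℝ, ∀ i k, H i k = (1 - t i k) * ν 1 k / ν i k :=
    ⟨_, fun _ _ => rfl⟩
  have eA : ∀ i k, r i k * G i 0 = G i k * r 0 k := fun i k => by
    have := eqs 1 0 0 0 i k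
    rw [hG, hG, div_mul_eq_mul_div _ (ν i k), eq_div_iff (ν0 i k)]
    linear_combination this
  have eB : ∀ i k, (1 - r i k) * G i 1 = G i k * (1 - r 0 k) := fun i k => by
    have := eqs 0 1 0 0 i k
    rw [hG, hG, div_mul_eq_mul_div _ (ν i k), eq_div_iff (ν0 i k)]
    linear_combination this
  have eC : ∀ i k, r i k * H i 0 = H i k * r 1 k := fun i k => by
    have := eqs 0 0 1 0 i k
    rw [hH, hH, div_mul_eq_mul_div _ (ν i k), eq_div_iff (ν0 i k)]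
    linear_combination this
  have eD : ∀ i k, (1 - r i k) * H i 1 = H i k * (1 - r 1 k) := fun i k => by
    have := eqs 0 0 0 1 i k
    rw [hH, hH, div_mul_eq_mul_div _ (ν i k), eq_div_iff (ν0 i k)]
    linear_combination this
  have G0 : ∀ i k, i ≠ 1 → G i k ≠ 0 := fun i k e => by
    rw [hG]
    exact div_ne_zero (mul_ne_zero (t1 k ▸ c5 k i 1 e) (ν0 0 k)) (ν0 i k)
  have H0 : ∀ i k, i ≠ 0 → H i k ≠ 0 := fun i k e => by
    rw [hH]
    exact div_ne_zero (mul_ne_zero (sub_ne_zero.2 (t0 k ▸ c5 k 0 i e.symm)) (ν0 1 k)) (ν0 i k)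
  have z0 : ∀ i k, k ≠ 1 → r i k ≠ 0 := fun i k e => r1 i ▸ a5 i k 1 e
  have z1 : ∀ i k, k ≠ 0 → 1 - r i k ≠ 0 := fun i k e => sub_ne_zero.2 (r0 i ▸ a5 i 0 k e.symm)
  have ρ0 := fun i => z0 i 2 (by decide)
  have ρ1 := fun i => z1 i 2 (by decide)
  have π0 := fun i => z0 i 3 (by decide)
  have π1 := fun i => z1 i 3 (by decide)
  have k1 : ∀ i, i ≠ 1 → (1 - r i 3) * r i 2 * ((1 - r 0 2) * r 0 3) =
      (1 - r 0 3) * r 0 2 * ((1 - r i 2) * r i 3) := fun i e =>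
    mul_left_cancel₀ (mul_ne_zero (G0 i 0 e) (G0 i 1 e)) (by
      linear_combination (r i 2 * G i 0 * ((1 - r 0 2) * r 0 3)) * eB i 3 +
        (G i 3 * (1 - r 0 3) * ((1 - r 0 2) * r 0 3)) * eA i 2 -
        (r i 3 * G i 0 * ((1 - r 0 3) * r 0 2)) * eB i 2 -
        (G i 2 * (1 - r 0 2) * ((1 - r 0 3) * r 0 2)) * eA i 3)
  have k2 : (1 - r 2 3) * r 2 2 * ((1 - r 1 2) * r 1 3) =
      (1 - r 1 3) * r 1 2 * ((1 - r 2 2) * r 2 3) :=
    mul_left_cancel₀ (mul_ne_zero (H0 2 0 (by decide)) (H0 2 1 (by decide))) (by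
      linear_combination (r 2 2 * H 2 0 * ((1 - r 1 2) * r 1 3)) * eD 2 3 +
        (H 2 3 * (1 - r 1 3) * ((1 - r 1 2) * r 1 3)) * eC 2 2 -
        (r 2 3 * H 2 0 * ((1 - r 1 3) * r 1 2)) * eD 2 2 -
        (H 2 2 * (1 - r 1 2) * ((1 - r 1 3) * r 1 2)) * eC 2 3)
  have k3 : ∀ i, (1 - r i 3) * r i 2 =
      (1 - r 0 3) * r 0 2 / ((1 - r 0 2) * r 0 3) * ((1 - r i 2) * r i 3) := fun i => by
    rw [div_mul_eq_mul_div, eq_div_iff (mul_ne_zero (ρ1 0) (π0 0))]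
    by_cases e : i = 1
    · subst e
      refine mul_left_cancel₀ (mul_ne_zero (ρ1 2) (π0 2)) ?_
      linear_combination ((1 - r 1 2) * r 1 3) * k1 2 (by decide) - ((1 - r 0 2) * r 0 3) * k2
    · exact k1 i e
  have gale : ∀ v k, h 1 v = 0 → h k v = 0 → ∑ i, g i v / g i (a i) * r i k = 0 := fun v k e1 e2 => by
    rw [a7 v, e1] at e2
    simp only [map_add, map_sum, map_smul, smul_eq_mul, zero_div, zero_mul, add_zero] at e2
    simp only [hr, ← mul_div_assoc, ← sum_div, e2, zero_div]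
  have gy : ∀ i, g i (c 2) / g i (a i) = g i b' / g i (a i) * t i 2 := fun i => by
    have := n2 i
    rw [ht]
    field_simp
  obtain ⟨y2, y3⟩ := affine5 (ρ := fun i => r i 2) (π := fun i => r i 3)
    (m := fun i => g i b' / g i (a i)) (y := fun i => t i 2) (fun i => div_ne_zero (n2 i) (a4 i)) ρ0
    (a5 0 2 3 (by decide))
    (div_ne_zero (mul_ne_zero (π1 0) (ρ0 0)) (mul_ne_zero (ρ1 0) (π0 0))) k3
    (a8 2 3 (by decide)) (by simpa only [r0, mul_one] using gale b' 0 (hb' 1) (hb' 0))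
    (gale b' 2 (hb' 1) (hb' 2)) (gale b' 3 (hb' 1) (hb' 3))
    (by simpa only [r0, mul_one, gy] using gale (c 2) 0 (c1 2 1 (by decide)) (c1 2 0 (by decide)))
    (by simpa only [gy] using gale (c 2) 3 (c1 2 1 (by decide)) (c1 2 3 (by decide))) (t0 2) (t1 2)
  have dG : ∀ i, r i 2 * (1 - r i 2) * (G i 1 - G i 0) = G i 2 * (r i 2 - r 0 2) := fun i => by
    linear_combination r i 2 * eB i 2 - (1 - r i 2) * eA i 2
  have dH : ∀ i, r i 2 * (1 - r i 2) * (H i 1 - H i 0) = H i 2 * (r i 2 - r 1 2) := fun i => by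
    linear_combination r i 2 * eD i 2 - (1 - r i 2) * eC i 2
  have cr : G 2 2 * (r 2 2 - r 0 2) * (H 3 2 * (r 3 2 - r 1 2)) =
      G 3 2 * (r 3 2 - r 0 2) * (H 2 2 * (r 2 2 - r 1 2)) := by
    have d := sub_ne_zero.2 (a8 0 1 (by decide))
    have := ν0 2 2
    have := ν0 3 2
    rw [hG, hG, hH, hH, eq_div_of_mul_eq d y2, eq_div_of_mul_eq d y3]
    field_simp
    ring
  have det : (G 2 1 - G 2 0) * (H 3 1 - H 3 0) = (G 3 1 - G 3 0) * (H 2 1 - H 2 0) :=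
    mul_left_cancel₀ (mul_ne_zero (mul_ne_zero (ρ0 2) (ρ1 2)) (mul_ne_zero (ρ0 3) (ρ1 3))) (by
      linear_combination cr + (r 3 2 * (1 - r 3 2) * (H 3 1 - H 3 0)) * dG 2 +
        (G 2 2 * (r 2 2 - r 0 2)) * dH 3 - (r 2 2 * (1 - r 2 2) * (H 2 1 - H 2 0)) * dG 3 -
        (G 3 2 * (r 3 2 - r 0 2)) * dH 2)
  obtain ⟨L, hL, e1, e2, e3, e4⟩ :=
    exL (H 2 1 - H 2 0) (H 2 1 - H 2 0) (G 2 0 - G 2 1) (G 2 0 - G 2 1)
  have val : ∀ i k, L (E i k) = G i k * L (E 0 k) + H i k * L (E 1 k) := fun i k => by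
    have := ν0 i k
    rw [hG, hH]
    field_simp
    linear_combination col L hL i k
  have := kill L hL fun i => by
    fin_cases i
    · exact e2.trans e1.symm
    · exact e4.trans e3.symm
    · change L (E 2 1) = L (E 2 0)
      rw [val 2, val 2, e1, e2, e3, e4]
      ring
    · change L (E 3 1) = L (E 3 0)
      rw [val 3, val 3, e1, e2, e3, e4]
      linear_combination -det
  rw [this, LinearMap.zero_apply] at e3
  refine mul_ne_zero (G0 2 2 (by decide)) (sub_ne_zero.2 (a8 2 0 (by decide))) ?_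
  linear_combination r 2 2 * (1 - r 2 2) * e3 - dG 2

end

variable {ι : Type} [Fintype ι] [DecidableEq ι]

/-- in dimension five every normal vector has a zero coordinate -/
lemma has_zero {f : ι → ((Fin 5 → ℝ) →ₗ[ℝ] ℝ)} (hf : Hyp f) (hc : Fintype.card ι = 2 * 5 - 2)
    {J : Finset ι} (hJ : J.card = 5 - 1) {b : Fin 5 → ℝ} (hb : IsN f J b) : ∃ j, b j = 0 := by
  by_contra! full
  have hJc : Jᶜ.card = 4 := by rw [card_compl]; omega
  let I : Fin 4 ↪ ι := (J.equivFinOfCardEq hJ).symm.toEmbedding.trans (Function.Embedding.subtype _)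
  let K : Fin 4 ↪ ι :=
    (Jᶜ.equivFinOfCardEq hJc).symm.toEmbedding.trans (Function.Embedding.subtype _)
  have hI : ∀ i, I i ∈ J := fun i => ((J.equivFinOfCardEq hJ).symm i).2
  have hK : ∀ k, K k ∈ Jᶜ := fun k => ((Jᶜ.equivFinOfCardEq hJc).symm k).2
  have hIK : ∀ i k, I i ≠ K k := fun i k e => mem_compl.1 (hK k) (e ▸ hI i)
  have all : ∀ x, (∃ i, I i = x) ∨ ∃ k, K k = x := fun x => by
    by_cases e : x ∈ J
    · exact Or.inl ⟨J.equivFinOfCardEq hJ ⟨x, e⟩, by simp [I]⟩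
    · exact Or.inr ⟨Jᶜ.equivFinOfCardEq hJc ⟨x, mem_compl.2 e⟩, by simp [K]⟩
  obtain ⟨b', h0, h1⟩ := exists_zero_on f Jᶜ (by omega)
  obtain ⟨μ, -, hμ⟩ := sq_prop hf hb ⟨h0, h1⟩
  refine no_full_aux (g := fun i => f (I i)) (h := fun k => f (K k)) (fun A B u e x y => ?_)
    (fun i k x y e1 e2 e3 e4 e5 e6 => ?_) (fun i => hb.2 _ (hI i)) full h0 (fun k => h1 _ (hK k)) hμ
  · refine full_spark hf (by norm_num) hc (A.map I ∪ B.map K) ?_ u fun l hl => ?_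
    · rw [card_union_of_disjoint, card_map, card_map, e]
      simp only [disjoint_left, mem_map, not_exists, not_and, forall_exists_index, and_imp]
      rintro _ i - rfl k -
      exact (hIK i k).symm
    · rcases mem_union.1 hl with hl | hl <;> obtain ⟨i, hi, rfl⟩ := mem_map.1 hl
      exacts [x i hi, y i hi]
  · refine sq_prop hf (J := insert (K k) (J.erase (I i))) ⟨fun e => e1 (by simp [e]), fun l hl => ?_⟩
      ⟨fun e => e2 (by simp [e]), fun l hl => ?_⟩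
    · rcases mem_insert.1 hl with rfl | hl
      · exact e4
      · rcases all l with ⟨i', rfl⟩ | ⟨k', rfl⟩
        · exact e3 i' fun e => (mem_erase.1 hl).1 (e ▸ rfl)
        · exact absurd (mem_erase.1 hl).2 (mem_compl.1 (hK k'))
    · simp only [mem_compl, mem_insert, mem_erase, not_or, not_and] at hl
      rcases all l with ⟨i', rfl⟩ | ⟨k', rfl⟩
      · by_cases e : i' = i
        · exact e ▸ e6
        · exact absurd (hI i') (hl.2 fun x => e (I.injective x))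
      · exact e5 k' fun e => hl.1 (e ▸ rfl)

end Pool.Agent.Lib.MP_eac85a_an
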