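import Pool.Agent.Lib.MP_eac85a_an.Four
import Pool.Agent.Lib.MP_eac85a_an.Five

/-!
No `2n-2` lines do weak phase retrieval in dimension `n ≥ 4`.
-/

namespace Pool.Agent.Lib.MP_eac85a_an

open Finset Module

variable {n : ℕ} {ι : Type} [Fintype ι] [DecidableEq ι]

section
variable {f : ι → ((Fin n → ℝ) →ₗ[ℝ] ℝ)} (hf : Hyp f) (hn : 4 ≤ n)
  (hc : Fintype.card ι = 2 * n - 2) (p : Finset ι → (Fin n → ℝ))
  (hp : ∀ J : Finset ι, J.card = n - 1 → IsN f J (p J))
include hf hn hc hp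

lemma support_le_four {J : Finset ι} (hJ : J.card = n - 1) {j0 : Fin n} (h0 : p J j0 = 0) :
    (Finset.univ.filter fun j => p J j ≠ 0).card ≤ 4 := by
  have hn2 : 2 ≤ n := by omega
  have hJc : (Jᶜ).card = n - 1 := by rw [Finset.card_compl, hc, hJ]; omega
  obtain ⟨i1, hi1, i2, hi2, hi12⟩ := Finset.one_lt_card.1 (show 1 < J.card by omega)
  obtain ⟨k1, hk1', k2, hk2', hk12⟩ := Finset.one_lt_card.1 (show 1 < (Jᶜ).card by omega)
  have hk1 : k1 ∉ J := Finset.mem_compl.1 hk1'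
  have hk2 : k2 ∉ J := Finset.mem_compl.1 hk2'
  set x : ι → ι → (Fin n → ℝ) := fun i k => p (insert k (J.erase i)) with hx
  set y : ι → ι → (Fin n → ℝ) := fun i k => p (insert i (Jᶜ.erase k)) with hy
  have hxN : ∀ i ∈ J, ∀ k ∉ J, IsN f (insert k (J.erase i)) (x i k) :=
    fun i hi k hk => hp _ (card_swap hJ hi hk)
  have hyN : ∀ i ∈ J, ∀ k ∉ J, IsN f (insert i (Jᶜ.erase k)) (y i k) :=
    fun i hi k hk => hp _ (card_swap hJc (Finset.mem_compl.2 hk) (by simpa using hi))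
  have hb : IsN f J (p J) := hp J hJ
  have hb' : IsN f Jᶜ (p Jᶜ) := hp _ hJc
  set g : Fin 5 → (Fin n → ℝ) :=
    ![p J * p J, x i1 k1 * x i1 k1, x i1 k2 * x i1 k2, x i2 k1 * x i2 k1, x i2 k2 * x i2 k2]
    with hg
  set U : Submodule ℝ (Fin n → ℝ) := Submodule.span ℝ (Set.range g) with hU
  have hgU : ∀ r, g r ∈ U := fun r => Submodule.subset_span ⟨r, rfl⟩
  have hUb : p J * p J ∈ U := hgU 0
  have h11 : x i1 k1 * x i1 k1 ∈ U := hgU 1
  have h12 : x i1 k2 * x i1 k2 ∈ U := hgU 2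
  have h21 : x i2 k1 * x i2 k1 ∈ U := hgU 3
  have h22 : x i2 k2 * x i2 k2 ∈ U := hgU 4
  have hxy : ∀ i ∈ J, ∀ k ∉ J, ∃ μ : ℝ, μ ≠ 0 ∧ y i k * y i k = μ • (x i k * x i k) := by
    intro i hi k hk
    apply sq_prop hf (hxN i hi k hk)
    rw [compl_swap hi hk]
    exact hyN i hi k hk
  have hUb' : p Jᶜ * p Jᶜ ∈ U := by
    obtain ⟨μ, -, h⟩ := sq_prop hf hb hb'
    rw [h]; exact U.smul_mem _ hUb
  -- columns
  have hcol : ∀ k ∉ J, x i1 k * x i1 k ∈ U → x i2 k * x i2 k ∈ U →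
      ∀ i ∈ J, x i k * x i k ∈ U := by
    intro k hk h1 h2 i hi
    have hkc : k ∈ Jᶜ := Finset.mem_compl.2 hk
    have hM : (Jᶜ.erase k).card = n - 2 := by rw [Finset.card_erase_of_mem hkc]; omega
    have e1 : y i1 k * y i1 k ∈ U := by
      obtain ⟨μ, -, h⟩ := hxy i1 hi1 k hk
      rw [h]; exact U.smul_mem _ h1
    have e2 : y i2 k * y i2 k ∈ U := by
      obtain ⟨μ, -, h⟩ := hxy i2 hi2 k hk
      rw [h]; exact U.smul_mem _ h2
    have hbk : IsN f (insert k (Jᶜ.erase k)) (p Jᶜ) := by rw [Finset.insert_erase hkc]; exact hb'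
    have e3 : y i k * y i k ∈ U :=
      conic hf hn2 hc hM (i := i1) (k := i2) (l := k) (by simp [hi1]) (by simp [hi2]) (by simp)
        hi12 (fun h => hk (h ▸ hi1)) (fun h => hk (h ▸ hi2)) (hyN i1 hi1 k hk) (hyN i2 hi2 k hk)
        hbk U e1 e2 hUb' (fun l hl => (hyN i hi k hk).2 l (Finset.mem_insert_of_mem hl))
        (fun l hl => (hyN i hi k hk).2 l (Finset.mem_insert_of_mem hl))
    obtain ⟨μ, hμ, h⟩ := hxy i hi k hk
    rw [h] at e3
    exact (U.smul_mem_iff hμ).1 e3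
  -- rows
  have hrow : ∀ i ∈ J, x i k1 * p J ∈ U := by
    intro i hi
    have hM : (J.erase i).card = n - 2 := by rw [Finset.card_erase_of_mem hi]; omega
    have hbi : IsN f (insert i (J.erase i)) (p J) := by rw [Finset.insert_erase hi]; exact hb
    exact conic hf hn2 hc hM (i := k1) (k := k2) (l := i) (by simp [hk1]) (by simp [hk2]) (by simp)
      hk12 (fun h => hk1 (h ▸ hi)) (fun h => hk2 (h ▸ hi)) (hxN i hi k1 hk1) (hxN i hi k2 hk2)
      hbi U (hcol k1 hk1 h11 h21 i hi) (hcol k2 hk2 h12 h22 i hi) hUb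
      (fun l hl => (hxN i hi k1 hk1).2 l (Finset.mem_insert_of_mem hl))
      (fun l hl => hb.2 l (Finset.mem_of_mem_erase hl))
  have hall : ∀ v : Fin n → ℝ, v * p J ∈ U := by
    intro v
    obtain ⟨c, d, h⟩ := span_all hf hn2 hc hJ hk1 hb (fun i => x i k1)
      (fun i hi => hxN i hi k1 hk1) v
    rw [h, add_mul, Finset.sum_mul]
    apply U.add_mem
    · apply U.sum_mem
      intro i hi
      rw [smul_mul_assoc]
      exact U.smul_mem _ (hrow i hi)
    · rw [smul_mul_assoc]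
      exact U.smul_mem _ hUb
  have hrank : finrank ℝ U ≤ 5 := by
    have := finrank_range_le_card (R := ℝ) g
    rw [Fintype.card_fin] at this
    exact this
  set S := Finset.univ.filter fun j => p J j ≠ 0 with hS
  have hmem : ∀ j ∈ S, (Pi.single j (1 : ℝ) : Fin n → ℝ) ∈ U := by
    intro j hj
    have hj0 : p J j ≠ 0 := (Finset.mem_filter.1 hj).2
    have := hall (Pi.single j (p J j)⁻¹)
    convert this using 1
    funext l
    by_cases h : l = j
    · subst h; simp [hj0]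
    · simp [h]
  have hx0 : x i1 k1 j0 ≠ 0 := no_common_zero hf hn hc p hp hJ hi1 hk1 h0
  have hS0 : j0 ∉ S := fun e => (Finset.mem_filter.1 e).2 h0
  have hli : LinearIndependent ℝ (fun o : Option S => (o.elim ⟨x i1 k1 * x i1 k1, h11⟩
      (fun j => ⟨Pi.single j.1 (1 : ℝ), hmem j.1 j.2⟩) : U)) := by
    apply LinearIndependent.of_comp U.subtype
    refine linearIndependent_option.2 ⟨?_, fun e => ?_⟩
    · have := (Pi.basisFun ℝ (Fin n)).linearIndependent.comp (fun j : S => j.1)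
        Subtype.val_injective
      rw [show (⇑(Pi.basisFun ℝ (Fin n)) ∘ fun j : S => j.1) = fun j : S => Pi.single j.1 (1 : ℝ) from
        funext fun j => by simp] at this
      exact this
    · have : x i1 k1 * x i1 k1 ∈ LinearMap.ker (LinearMap.proj (R := ℝ) (φ := fun _ => ℝ) j0) := by
        refine Submodule.span_le.2 ?_ e
        rintro _ ⟨j, rfl⟩
        exact Pi.single_eq_of_ne (M := fun _ => ℝ) (show j0 ≠ j.1 from fun e => hS0 (e ▸ j.2)) 1
      exact mul_ne_zero hx0 hx0 this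
  have := hli.fintype_card_le_finrank
  simp only [Fintype.card_option, Fintype.card_coe] at this
  omega

lemma six_false (h6 : 6 ≤ n) : False := by
  obtain ⟨M, -, hM⟩ := Finset.exists_subset_card_eq (s := (Finset.univ : Finset ι)) (n := n - 2)
    (by rw [Finset.card_univ, hc]; omega)
  have hMc : (Mᶜ).card = n := by rw [Finset.card_compl, hc, hM]; omega
  set Z : ι → Finset (Fin n) := fun i => Finset.univ.filter fun j => p (insert i M) j = 0 with hZ
  have hcard : ∀ i ∈ Mᶜ, (insert i M).card = n - 1 := by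
    intro i hi
    rw [Finset.card_insert_of_notMem (Finset.mem_compl.1 hi)]; omega
  have hZ2 : ∀ i ∈ Mᶜ, 2 ≤ (Z i).card := by
    intro i hi
    have h1 := support_le_five hf (by omega) hc p hp (hcard i hi)
    have h2 := Finset.card_filter_add_card_filter_not (s := (Finset.univ : Finset (Fin n)))
      (fun j => p (insert i M) j = 0)
    simp only [Finset.card_univ, Fintype.card_fin] at h2
    have h3 : (Finset.univ.filter fun j => ¬ p (insert i M) j = 0).card ≤ 5 := h1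
    obtain ⟨j, hj⟩ := card_pos.1
      (show 0 < (Finset.univ.filter fun j => p (insert i M) j = 0).card by omega)
    have h4 : (Finset.univ.filter fun j => ¬ p (insert i M) j = 0).card ≤ 4 :=
      support_le_four hf (by omega) hc p hp (hcard i hi) (mem_filter.1 hj).2
    show 2 ≤ (Finset.univ.filter fun j => p (insert i M) j = 0).card
    omega
  have hdisj : ((Mᶜ : Finset ι) : Set ι).PairwiseDisjoint Z := by
    intro i hi k hk hik
    have hi' : i ∉ M := Finset.mem_compl.1 hi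
    have hk' : k ∉ M := Finset.mem_compl.1 hk
    rw [Function.onFun, Finset.disjoint_left]
    intro j hj1 hj2
    have h1 : p (insert i M) j = 0 := (Finset.mem_filter.1 hj1).2
    have h2 : p (insert k M) j = 0 := (Finset.mem_filter.1 hj2).2
    have := no_common_zero hf (by omega) hc p hp (hcard i hi) (i0 := i) (k0 := k) (by simp)
      (by simp [hk', Ne.symm hik]) h1
    rw [Finset.erase_insert hi'] at this
    exact this h2
  have h1 := Finset.card_biUnion hdisj
  have h2 : (Mᶜ.biUnion Z).card ≤ n := by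
    simpa using Finset.card_le_univ (Mᶜ.biUnion Z)
  have h3 : ∑ i ∈ Mᶜ, 2 ≤ ∑ i ∈ Mᶜ, (Z i).card := Finset.sum_le_sum hZ2
  rw [Finset.sum_const, hMc, smul_eq_mul] at h3
  omega

lemma near {J K : Finset ι} (hJ : J.card = n - 1) (hK : K.card = n - 1)
    (h : (J ∩ K).card = n - 2) {j : Fin n} (h1 : p J j = 0) : p K j ≠ 0 := by
  obtain ⟨i, hi⟩ := card_eq_one.1 (show (J \ K).card = 1 by
    have := card_sdiff_add_card_inter J K; omega)
  obtain ⟨k, hk⟩ := card_eq_one.1 (show (K \ J).card = 1 by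
    have := card_sdiff_add_card_inter K J; rw [inter_comm] at this; omega)
  have a1 := mem_sdiff.1 (hi ▸ mem_singleton_self i)
  have a2 := mem_sdiff.1 (hk ▸ mem_singleton_self k)
  have : K = insert k (J.erase i) := by
    ext x
    have b1 := Finset.ext_iff.1 hi x
    have b2 := Finset.ext_iff.1 hk x
    simp only [mem_sdiff, mem_singleton, mem_insert, mem_erase] at b1 b2 ⊢
    tauto
  rw [this]
  exact no_common_zero hf hn hc p hp hJ a1.1 a2.2 h1

end

/-- search for a colouring with five colours; `l` lists the earlier neighbours -/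
def dfs : List (List ℕ) → ℕ → (ℕ → ℕ) → Bool
  | [], _, _ => true
  | nb :: l, s, A => [0, 1, 2, 3, 4].any fun c => (nb.all fun t => !(Nat.beq (A t) c)) &&
      dfs l (s + 1) fun t => cond (Nat.beq t s) c (A t)

lemma dfs_true (col : ℕ → Fin 5) : ∀ (l : List (List ℕ)) (s : ℕ) (A : ℕ → ℕ),
    (∀ t < s, A t = col t) → (∀ i, ∀ t ∈ l.getD i [], t < s + i ∧ col t ≠ col (s + i)) →
    dfs l s A = true
  | [], _, _, _, _ => rfl
  | nb :: l, s, A, h1, h2 => by
    refine List.any_eq_true.2 ⟨col s, ?_, ?_⟩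
    · generalize col s = c
      revert c
      decide
    · refine Bool.and_eq_true_iff.2 ⟨List.all_eq_true.2 fun t ht => ?_,
        dfs_true col l _ _ (fun t ht => ?_) fun i t ht => ?_⟩
      · obtain ⟨a, b⟩ := h2 0 t ht
        rw [h1 t a, Bool.not_eq_true', ← Bool.not_eq_true, Nat.beq_eq]
        exact fun e => b (Fin.ext e)
      · cases e : Nat.beq t s
        · exact h1 t (by have := Nat.ne_of_beq_eq_false e; omega)
        · rw [Nat.eq_of_beq_eq_true e]; rfl
      · have := h2 (i + 1) t ht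
        rwa [show s + (i + 1) = s + 1 + i by omega] at this

/-- twenty-two index sets -/
def quad : List (Finset (Fin 8)) :=
  [{0, 1, 2, 7}, {0, 1, 3, 7}, {0, 1, 4, 7}, {0, 1, 5, 7}, {0, 1, 6, 7}, {0, 2, 3, 7}, {0, 2,
    4, 7}, {0, 2, 5, 7}, {0, 2, 6, 7}, {0, 3, 4, 7}, {0, 3, 5, 7}, {0, 3, 6, 7}, {0, 4, 5, 7},
    {0, 4, 6, 7}, {0, 5, 6, 7}, {1, 2, 3, 7}, {1, 2, 4, 7}, {1, 2, 5, 7}, {1, 2, 6, 7}, {1, 3,
    4, 7}, {1, 3, 5, 7}, {1, 3, 6, 7}]

/-- their earlier neighbours -/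
def nbs : List (List ℕ) :=
  [[], [0], [0, 1], [0, 1, 2], [0, 1, 2, 3], [0, 1], [0, 2, 5], [0, 3, 5, 6], [0, 4, 5, 6, 7],
    [1, 2, 5, 6], [1, 3, 5, 7, 9], [1, 4, 5, 8, 9, 10], [2, 3, 6, 7, 9, 10], [2, 4, 6, 8, 9,
    11, 12], [3, 4, 7, 8, 10, 11, 12, 13], [0, 1, 5], [0, 2, 6, 15], [0, 3, 7, 15, 16], [0, 4,
    8, 15, 16, 17], [1, 2, 9, 15, 16], [1, 3, 10, 15, 17, 19], [1, 4, 11, 15, 18, 19, 20]]

lemma dfs_false : dfs nbs 0 (fun _ => 0) = false := by decide +kernel

lemma quad_card : ∀ i < 22, (quad.getD i ∅).card = 5 - 1 := by decide +kernel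

lemma quad_near : ∀ i < 22, ∀ t ∈ nbs.getD i [], t < i ∧ (quad.getD t ∅ ∩ quad.getD i ∅).card = 5 - 2 := by
  decide +kernel

lemma five_false {f : Fin 8 → ((Fin 5 → ℝ) →ₗ[ℝ] ℝ)} (hf : Hyp f) (p : Finset (Fin 8) → (Fin 5 → ℝ))
    (hp : ∀ J : Finset (Fin 8), J.card = 5 - 1 → IsN f J (p J)) : False := by
  have ex : ∀ i, ∃ j : Fin 5, i < 22 → p (quad.getD i ∅) j = 0 := fun i => by
    by_cases e : i < 22
    · exact (has_zero hf (by simp) (quad_card i e) (hp _ (quad_card i e))).imp fun _ x _ => x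
    · exact ⟨0, fun x => absurd x e⟩
  choose col hcol using ex
  have := dfs_true col nbs 0 (fun _ => 0) (by simp) fun i t ht => by
    have hi : i < 22 := by
      by_contra e
      rw [List.getD_eq_default _ _ (not_lt.1 e)] at ht
      simp at ht
    obtain ⟨a, b⟩ := quad_near i hi t ht
    rw [zero_add]
    exact ⟨a, fun e => near hf (by norm_num) (by simp) p hp (quad_card t (by omega)) (quad_card i hi) b
      (hcol t (by omega)) (e ▸ hcol i hi)⟩
  rw [dfs_false] at this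
  exact Bool.false_ne_true this

theorem not_hyp_four (hn : 4 ≤ n) {f : Fin (2 * n - 2) → ((Fin n → ℝ) →ₗ[ℝ] ℝ)} : ¬ Hyp f := by
  intro hf
  have hex : ∀ J : Finset (Fin (2 * n - 2)), ∃ x : Fin n → ℝ, J.card = n - 1 → IsN f J x := by
    intro J
    by_cases hJ : J.card = n - 1
    · obtain ⟨x, h1, h2⟩ := exists_zero_on f J (by omega)
      exact ⟨x, fun _ => ⟨h1, h2⟩⟩
    · exact ⟨0, fun h => absurd h hJ⟩
  choose p hp using hex
  obtain rfl | rfl | h : n = 4 ∨ n = 5 ∨ 6 ≤ n := by omega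
  · exact four_false hf p hp
  · exact five_false hf p hp
  · exact six_false hf hn (Fintype.card_fin _) p hp h

end Pool.Agent.Lib.MP_eac85a_an
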