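import Mathlib

/-!
Combinatorial core of the non-existence of `2n-2` lines doing weak phase retrieval in dimension
`n ≥ 7`.  The lines are encoded by linear functionals `f i`.
-/

namespace Pool.Agent.Lib.MP_eac85a_an

open Finset Module

variable {n : ℕ} {ι : Type} [Fintype ι] [DecidableEq ι]

/-- fewer than `n` functionals have a common nonzero zero -/
lemma exists_common_zero {κ : Type} [Fintype κ] (g : κ → ((Fin n → ℝ) →ₗ[ℝ] ℝ))
    (h : Fintype.card κ < n) : ∃ x : Fin n → ℝ, x ≠ 0 ∧ ∀ i, g i x = 0 := by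
  have h1 : LinearMap.ker (LinearMap.pi g) ≠ ⊥ := by
    apply LinearMap.ker_ne_bot_of_finrank_lt
    simpa using h
  obtain ⟨x, hx, hx0⟩ := (Submodule.ne_bot_iff _).1 h1
  refine ⟨x, hx0, fun i => ?_⟩
  have := congrFun (LinearMap.mem_ker.1 hx) i
  simpa using this

omit [Fintype ι] [DecidableEq ι] in
lemma exists_zero_on (f : ι → ((Fin n → ℝ) →ₗ[ℝ] ℝ)) (S : Finset ι) (h : S.card < n) :
    ∃ x : Fin n → ℝ, x ≠ 0 ∧ ∀ i ∈ S, f i x = 0 := by
  obtain ⟨x, hx, h2⟩ := exists_common_zero (κ := S) (fun i => f i) (by simpa using h)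
  exact ⟨x, hx, fun i hi => h2 ⟨i, hi⟩⟩

/-- the hypothesis extracted from weak phase retrieval -/
def Hyp (f : ι → ((Fin n → ℝ) →ₗ[ℝ] ℝ)) : Prop :=
  ∀ (I : Finset ι) (u v : Fin n → ℝ), (∀ i ∈ I, f i u = 0) → (∀ i ∉ I, f i v = 0) →
    ∀ j l, u j ^ 2 * v l ^ 2 = u l ^ 2 * v j ^ 2

lemma full_spark {f : ι → ((Fin n → ℝ) →ₗ[ℝ] ℝ)} (hf : Hyp f) (hn : 2 ≤ n)
    (hc : Fintype.card ι = 2 * n - 2) (S : Finset ι) (hS : S.card = n) (u : Fin n → ℝ)
    (hu : ∀ i ∈ S, f i u = 0) : u = 0 := by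
  by_contra hu0
  obtain ⟨j, hj⟩ := Function.ne_iff.1 hu0
  have hj' : u j ≠ 0 := hj
  have hcard : Fintype.card (Option (Sᶜ : Finset ι)) < n := by
    rw [Fintype.card_option, Fintype.card_coe, Finset.card_compl, hS, hc]; omega
  obtain ⟨v, hv, h2⟩ := exists_common_zero (κ := Option (Sᶜ : Finset ι))
    (fun o => match o with
      | none => LinearMap.proj j
      | some i => f i) hcard
  have hvj : v j = 0 := by simpa using h2 none
  apply hv
  funext l
  have := hf S u v hu (fun i hi => h2 (some ⟨i, Finset.mem_compl.2 hi⟩)) j l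
  rw [hvj] at this
  have h3 : u j ^ 2 * v l ^ 2 = 0 := by rw [this]; ring
  rcases mul_eq_zero.1 h3 with h | h
  · exact absurd (pow_eq_zero_iff (two_ne_zero) |>.1 h) hj'
  · exact pow_eq_zero_iff (two_ne_zero) |>.1 h

/-- `x` is a normal vector for the index set `J` -/
def IsN (f : ι → ((Fin n → ℝ) →ₗ[ℝ] ℝ)) (J : Finset ι) (x : Fin n → ℝ) : Prop :=
  x ≠ 0 ∧ ∀ i ∈ J, f i x = 0

section
variable {f : ι → ((Fin n → ℝ) →ₗ[ℝ] ℝ)} (hf : Hyp f) (hn : 2 ≤ n)
  (hc : Fintype.card ι = 2 * n - 2)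
include hf hn hc

lemma ne_zero_of_notMem {J : Finset ι} (hJ : J.card = n - 1) {x : Fin n → ℝ} (hx : IsN f J x)
    {k : ι} (hk : k ∉ J) : f k x ≠ 0 := by
  intro h
  apply hx.1
  apply full_spark hf hn hc (insert k J) (by rw [Finset.card_insert_of_notMem hk]; omega)
  intro i hi
  rcases Finset.mem_insert.1 hi with rfl | hi
  · exact h
  · exact hx.2 i hi

/-- two normals on a line span the line -/
lemma comb_two {M : Finset ι} (hM : M.card = n - 2) {i k : ι} (hi : i ∉ M) (hk : k ∉ M)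
    (hik : i ≠ k) {x y : Fin n → ℝ} (hx : IsN f (insert i M) x) (hy : IsN f (insert k M) y)
    {u : Fin n → ℝ} (hu : ∀ l ∈ M, f l u = 0) :
    u = (f k u / f k x) • x + (f i u / f i y) • y := by
  have hkx : f k x ≠ 0 := ne_zero_of_notMem hf hn hc
    (by rw [Finset.card_insert_of_notMem hi]; omega) hx (by simp [hk, hik.symm])
  have hiy : f i y ≠ 0 := ne_zero_of_notMem hf hn hc
    (by rw [Finset.card_insert_of_notMem hk]; omega) hy (by simp [hi, hik])
  have hik' : i ∉ insert k M := by simp [hi, hik]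
  have := full_spark hf hn hc (insert i (insert k M))
    (by rw [Finset.card_insert_of_notMem hik', Finset.card_insert_of_notMem hk]; omega)
    (u - ((f k u / f k x) • x + (f i u / f i y) • y)) (by
      intro l hl
      simp only [map_sub, map_add, map_smul, smul_eq_mul]
      rcases Finset.mem_insert.1 hl with rfl | hl
      · rw [hx.2 l (by simp)]; field_simp; ring
      rcases Finset.mem_insert.1 hl with rfl | hl
      · rw [hy.2 l (by simp)]; field_simp; ring
      · rw [hx.2 l (by simp [hl]), hy.2 l (by simp [hl]), hu l hl]; ring)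
  exact sub_eq_zero.1 this

/-- products on a line lie in the span of the squares of three normals on it -/
lemma conic {M : Finset ι} (hM : M.card = n - 2) {i k l : ι} (hi : i ∉ M) (hk : k ∉ M)
    (hl : l ∉ M) (hik : i ≠ k) (hil : i ≠ l) (hkl : k ≠ l) {x y z : Fin n → ℝ}
    (hx : IsN f (insert i M) x) (hy : IsN f (insert k M) y) (hz : IsN f (insert l M) z)
    (U : Submodule ℝ (Fin n → ℝ)) (hxU : x * x ∈ U) (hyU : y * y ∈ U) (hzU : z * z ∈ U)
    {u v : Fin n → ℝ} (hu : ∀ l ∈ M, f l u = 0) (hv : ∀ l ∈ M, f l v = 0) : u * v ∈ U := by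
  have hz' := comb_two hf hn hc hM hi hk hik hx hy (u := z) (fun m hm => hz.2 m (by simp [hm]))
  have hcz : (insert l M).card = n - 1 := by rw [Finset.card_insert_of_notMem hl]; omega
  have hkz : f k z ≠ 0 := ne_zero_of_notMem hf hn hc hcz hz (by simp [hk, hkl])
  have hiz : f i z ≠ 0 := ne_zero_of_notMem hf hn hc hcz hz (by simp [hi, hil])
  have hkx : f k x ≠ 0 := ne_zero_of_notMem hf hn hc
    (by rw [Finset.card_insert_of_notMem hi]; omega) hx (by simp [hk, hik.symm])
  have hiy : f i y ≠ 0 := ne_zero_of_notMem hf hn hc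
    (by rw [Finset.card_insert_of_notMem hk]; omega) hy (by simp [hi, hik])
  set α := f k z / f k x with hα
  set β := f i z / f i y with hβ
  have hα0 : α ≠ 0 := div_ne_zero hkz hkx
  have hβ0 : β ≠ 0 := div_ne_zero hiz hiy
  have hxy : x * y ∈ U := by
    have : x * y = (2 * α * β)⁻¹ • (z * z - (α * α) • (x * x) - (β * β) • (y * y)) := by
      rw [hz']
      funext j
      simp only [Pi.mul_apply, Pi.smul_apply, Pi.sub_apply, Pi.add_apply, smul_eq_mul]
      field_simp
      ring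
    rw [this]
    exact U.smul_mem _ (U.sub_mem (U.sub_mem hzU (U.smul_mem _ hxU)) (U.smul_mem _ hyU))
  have hu' := comb_two hf hn hc hM hi hk hik hx hy hu
  have hv' := comb_two hf hn hc hM hi hk hik hx hy hv
  set a := f k u / f k x
  set b := f i u / f i y
  set c := f k v / f k x
  set d := f i v / f i y
  have : u * v = (a * c) • (x * x) + (a * d + b * c) • (x * y) + (b * d) • (y * y) := by
    rw [hu', hv']
    funext j
    simp only [Pi.mul_apply, Pi.smul_apply, Pi.add_apply, smul_eq_mul]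
    ring
  rw [this]
  exact U.add_mem (U.add_mem (U.smul_mem _ hxU) (U.smul_mem _ hxy)) (U.smul_mem _ hyU)

omit hn hc in
/-- squares of complementary normals are proportional -/
lemma sq_prop {J : Finset ι} {x y : Fin n → ℝ} (hx : IsN f J x) (hy : IsN f Jᶜ y) :
    ∃ μ : ℝ, μ ≠ 0 ∧ y * y = μ • (x * x) := by
  have h := hf J x y hx.2 (fun i hi => hy.2 i (Finset.mem_compl.2 hi))
  obtain ⟨j, hj⟩ := Function.ne_iff.1 hx.1
  have hj' : x j ≠ 0 := hj
  have key : y * y = (y j ^ 2 / x j ^ 2) • (x * x) := by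
    funext l
    simp only [Pi.mul_apply, Pi.smul_apply, smul_eq_mul]
    have := h j l
    field_simp
    linarith
  refine ⟨_, ?_, key⟩
  intro h0
  rw [h0, zero_smul] at key
  apply hy.1
  funext l
  have := congrFun key l
  simpa using this

/-- a normal together with normals of neighbours spans everything -/
lemma span_all {J : Finset ι} (hJ : J.card = n - 1) {k : ι} (hk : k ∉ J) {b : Fin n → ℝ}
    (hb : IsN f J b) (a : ι → (Fin n → ℝ))
    (ha : ∀ i ∈ J, IsN f (insert k (J.erase i)) (a i)) (x : Fin n → ℝ) :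
    ∃ (c : ι → ℝ) (d : ℝ), x = ∑ i ∈ J, c i • a i + d • b := by
  have hia : ∀ i ∈ J, f i (a i) ≠ 0 := by
    intro i hi
    apply ne_zero_of_notMem hf hn hc _ (ha i hi)
    · have : i ≠ k := fun h => hk (h ▸ hi)
      simp [this]
    · rw [Finset.card_insert_of_notMem (by simp [hk]), Finset.card_erase_of_mem hi]; omega
  have hkb : f k b ≠ 0 := ne_zero_of_notMem hf hn hc hJ hb hk
  refine ⟨fun i => f i x / f i (a i), f k x / f k b, ?_⟩
  have := full_spark hf hn hc (insert k J) (by rw [Finset.card_insert_of_notMem hk]; omega)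
    (x - (∑ i ∈ J, (f i x / f i (a i)) • a i + (f k x / f k b) • b)) (by
      intro l hl
      simp only [map_sub, map_add, map_smul, map_sum, smul_eq_mul]
      rcases Finset.mem_insert.1 hl with rfl | hl
      · rw [Finset.sum_eq_zero]
        · field_simp; ring
        · intro i hi
          rw [(ha i hi).2 l (by simp)]; ring
      · rw [Finset.sum_eq_single l, hb.2 l hl]
        · have := hia l hl
          field_simp; ring
        · intro i hi hil
          rw [(ha i hi).2 l (by simp [hl, hil.symm])]; ring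
        · intro h; exact absurd hl h)
  exact sub_eq_zero.1 this

end

lemma compl_swap {J : Finset ι} {i k : ι} (hi : i ∈ J) (hk : k ∉ J) :
    (insert k (J.erase i))ᶜ = insert i (Jᶜ.erase k) := by
  ext x
  simp only [Finset.mem_compl, Finset.mem_insert, Finset.mem_erase]
  by_cases h1 : x = i
  · subst h1
    have : x ≠ k := fun h => hk (h ▸ hi)
    simp [this]
  · by_cases h2 : x = k
    · subst h2; simp [h1]
    · simp [h1, h2]

section
variable {f : ι → ((Fin n → ℝ) →ₗ[ℝ] ℝ)} (hf : Hyp f) (hn : 4 ≤ n)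
  (hc : Fintype.card ι = 2 * n - 2) (p : Finset ι → (Fin n → ℝ))
  (hp : ∀ J : Finset ι, J.card = n - 1 → IsN f J (p J))
include hf hn hc hp

omit hf hn hc hp [Fintype ι] in
lemma card_swap {J : Finset ι} (hJ : J.card = n - 1) {i k : ι} (hi : i ∈ J) (hk : k ∉ J) :
    (insert k (J.erase i)).card = n - 1 := by
  have := Finset.card_pos.2 ⟨i, hi⟩
  rw [Finset.card_insert_of_notMem (by simp [hk]), Finset.card_erase_of_mem hi]; omega

lemma support_le_five {J : Finset ι} (hJ : J.card = n - 1) :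
    (Finset.univ.filter fun j => p J j ≠ 0).card ≤ 5 := by
  have hn2 : 2 ≤ n := by omega
  have hJc : (Jᶜ).card = n - 1 := by rw [Finset.card_compl, hc, hJ]; omega
  obtain ⟨i1, hi1, i2, hi2, hi12⟩ := Finset.one_lt_card.1 (show 1 < J.card by omega)
  obtain ⟨k1, hk1', k2, hk2', hk12⟩ := Finset.one_lt_card.1 (show 1 < (Jᶜ).card by omega)
  have hk1 : k1 ∉ J := Finset.mem_compl.1 hk1'
  have hk2 : k2 ∉ J := Finset.mem_compl.1 hk2'
  set x : ι → ι → (Fin n → ℝ) := fun i k => p (insert k (J.erase i)) with hx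
  set y : ι → ι → (Fin n → ℝ) := fun i k => p (insert i (Jᶜ.erase k)) with hy
  have hxN : ∀ i ∈ J, ∀ k ∉ J, IsN f (insert k (J.erase i)) (x i k) :=
    fun i hi k hk => hp _ (card_swap hJ hi hk)
  have hyN : ∀ i ∈ J, ∀ k ∉ J, IsN f (insert i (Jᶜ.erase k)) (y i k) :=
    fun i hi k hk => hp _ (card_swap hJc (Finset.mem_compl.2 hk) (by simpa using hi))
  have hb : IsN f J (p J) := hp J hJ
  have hb' : IsN f Jᶜ (p Jᶜ) := hp _ hJc
  set g : Fin 5 → (Fin n → ℝ) :=
    ![p J * p J, x i1 k1 * x i1 k1, x i1 k2 * x i1 k2, x i2 k1 * x i2 k1, x i2 k2 * x i2 k2]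
    with hg
  set U : Submodule ℝ (Fin n → ℝ) := Submodule.span ℝ (Set.range g) with hU
  have hgU : ∀ r, g r ∈ U := fun r => Submodule.subset_span ⟨r, rfl⟩
  have hUb : p J * p J ∈ U := hgU 0
  have h11 : x i1 k1 * x i1 k1 ∈ U := hgU 1
  have h12 : x i1 k2 * x i1 k2 ∈ U := hgU 2
  have h21 : x i2 k1 * x i2 k1 ∈ U := hgU 3
  have h22 : x i2 k2 * x i2 k2 ∈ U := hgU 4
  have hxy : ∀ i ∈ J, ∀ k ∉ J, ∃ μ : ℝ, μ ≠ 0 ∧ y i k * y i k = μ • (x i k * x i k) := by
    intro i hi k hk
    apply sq_prop hf (hxN i hi k hk)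
    rw [compl_swap hi hk]
    exact hyN i hi k hk
  have hUb' : p Jᶜ * p Jᶜ ∈ U := by
    obtain ⟨μ, -, h⟩ := sq_prop hf hb hb'
    rw [h]; exact U.smul_mem _ hUb
  -- columns
  have hcol : ∀ k ∉ J, x i1 k * x i1 k ∈ U → x i2 k * x i2 k ∈ U →
      ∀ i ∈ J, x i k * x i k ∈ U := by
    intro k hk h1 h2 i hi
    have hkc : k ∈ Jᶜ := Finset.mem_compl.2 hk
    have hM : (Jᶜ.erase k).card = n - 2 := by rw [Finset.card_erase_of_mem hkc]; omega
    have e1 : y i1 k * y i1 k ∈ U := by
      obtain ⟨μ, -, h⟩ := hxy i1 hi1 k hk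
      rw [h]; exact U.smul_mem _ h1
    have e2 : y i2 k * y i2 k ∈ U := by
      obtain ⟨μ, -, h⟩ := hxy i2 hi2 k hk
      rw [h]; exact U.smul_mem _ h2
    have hbk : IsN f (insert k (Jᶜ.erase k)) (p Jᶜ) := by rw [Finset.insert_erase hkc]; exact hb'
    have e3 : y i k * y i k ∈ U :=
      conic hf hn2 hc hM (i := i1) (k := i2) (l := k) (by simp [hi1]) (by simp [hi2]) (by simp)
        hi12 (fun h => hk (h ▸ hi1)) (fun h => hk (h ▸ hi2)) (hyN i1 hi1 k hk) (hyN i2 hi2 k hk)
        hbk U e1 e2 hUb' (fun l hl => (hyN i hi k hk).2 l (Finset.mem_insert_of_mem hl))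
        (fun l hl => (hyN i hi k hk).2 l (Finset.mem_insert_of_mem hl))
    obtain ⟨μ, hμ, h⟩ := hxy i hi k hk
    rw [h] at e3
    exact (U.smul_mem_iff hμ).1 e3
  -- rows
  have hrow : ∀ i ∈ J, x i k1 * p J ∈ U := by
    intro i hi
    have hM : (J.erase i).card = n - 2 := by rw [Finset.card_erase_of_mem hi]; omega
    have hbi : IsN f (insert i (J.erase i)) (p J) := by rw [Finset.insert_erase hi]; exact hb
    exact conic hf hn2 hc hM (i := k1) (k := k2) (l := i) (by simp [hk1]) (by simp [hk2]) (by simp)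
      hk12 (fun h => hk1 (h ▸ hi)) (fun h => hk2 (h ▸ hi)) (hxN i hi k1 hk1) (hxN i hi k2 hk2)
      hbi U (hcol k1 hk1 h11 h21 i hi) (hcol k2 hk2 h12 h22 i hi) hUb
      (fun l hl => (hxN i hi k1 hk1).2 l (Finset.mem_insert_of_mem hl))
      (fun l hl => hb.2 l (Finset.mem_of_mem_erase hl))
  have hall : ∀ v : Fin n → ℝ, v * p J ∈ U := by
    intro v
    obtain ⟨c, d, h⟩ := span_all hf hn2 hc hJ hk1 hb (fun i => x i k1)
      (fun i hi => hxN i hi k1 hk1) v
    rw [h, add_mul, Finset.sum_mul]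
    apply U.add_mem
    · apply U.sum_mem
      intro i hi
      rw [smul_mul_assoc]
      exact U.smul_mem _ (hrow i hi)
    · rw [smul_mul_assoc]
      exact U.smul_mem _ hUb
  have hrank : finrank ℝ U ≤ 5 := by
    have := finrank_range_le_card (R := ℝ) g
    rw [Fintype.card_fin] at this
    exact this
  set S := Finset.univ.filter fun j => p J j ≠ 0 with hS
  have hmem : ∀ j ∈ S, (Pi.single j (1 : ℝ) : Fin n → ℝ) ∈ U := by
    intro j hj
    have hj0 : p J j ≠ 0 := (Finset.mem_filter.1 hj).2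
    have := hall (Pi.single j (p J j)⁻¹)
    convert this using 1
    funext l
    by_cases h : l = j
    · subst h; simp [hj0]
    · simp [h]
  have hli : LinearIndependent ℝ (fun j : S => (⟨Pi.single j.1 (1 : ℝ), hmem j.1 j.2⟩ : U)) := by
    apply LinearIndependent.of_comp U.subtype
    have := (Pi.basisFun ℝ (Fin n)).linearIndependent.comp (fun j : S => j.1)
      Subtype.val_injective
    convert this using 1
    funext j
    simp
  have := hli.fintype_card_le_finrank
  simp only [Fintype.card_coe] at this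
  omega

lemma no_common_zero {J : Finset ι} (hJ : J.card = n - 1) {i0 k0 : ι} (hi0 : i0 ∈ J)
    (hk0 : k0 ∉ J) {j : Fin n} (hbj : p J j = 0) : p (insert k0 (J.erase i0)) j ≠ 0 := by
  intro h0
  have hn2 : 2 ≤ n := by omega
  have hJc : (Jᶜ).card = n - 1 := by rw [Finset.card_compl, hc, hJ]; omega
  set x : ι → (Fin n → ℝ) := fun i => p (insert k0 (J.erase i)) with hx
  set y : ι → (Fin n → ℝ) := fun i => p (insert i (Jᶜ.erase k0)) with hy
  have hxN : ∀ i ∈ J, IsN f (insert k0 (J.erase i)) (x i) :=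
    fun i hi => hp _ (card_swap hJ hi hk0)
  have hyN : ∀ i ∈ J, IsN f (insert i (Jᶜ.erase k0)) (y i) :=
    fun i hi => hp _ (card_swap hJc (Finset.mem_compl.2 hk0) (by simpa using hi))
  have hb : IsN f J (p J) := hp J hJ
  have hb' : IsN f Jᶜ (p Jᶜ) := hp _ hJc
  have hxy : ∀ i ∈ J, (y i j = 0 ↔ x i j = 0) := by
    intro i hi
    obtain ⟨μ, hμ, h⟩ := sq_prop hf (hxN i hi) (by rw [compl_swap hi hk0]; exact hyN i hi)
    have := congrFun h j
    simp only [Pi.mul_apply, Pi.smul_apply, smul_eq_mul] at this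
    constructor
    · intro h1
      rw [h1] at this
      have h2 : μ * (x i j * x i j) = 0 := by rw [← this]; ring
      simpa [hμ] using h2
    · intro h1
      rw [h1] at this
      simpa using this
  have hb'j : p Jᶜ j = 0 := by
    obtain ⟨μ, hμ, h⟩ := sq_prop hf hb hb'
    have := congrFun h j
    simp only [Pi.mul_apply, Pi.smul_apply, smul_eq_mul, hbj] at this
    simpa using this
  have hkc : k0 ∈ Jᶜ := Finset.mem_compl.2 hk0
  have hM : (Jᶜ.erase k0).card = n - 2 := by rw [Finset.card_erase_of_mem hkc]; omega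
  have hbk : IsN f (insert k0 (Jᶜ.erase k0)) (p Jᶜ) := by rw [Finset.insert_erase hkc]; exact hb'
  have hy0 : y i0 j = 0 := (hxy i0 hi0).2 h0
  have hxall : ∀ i ∈ J, x i j = 0 := by
    intro i hi
    apply (hxy i hi).1
    have := comb_two hf hn2 hc hM (i := i0) (k := k0) (by simp [hi0]) (by simp)
      (fun h => hk0 (h ▸ hi0)) (hyN i0 hi0) hbk (u := y i)
      (fun l hl => (hyN i hi).2 l (Finset.mem_insert_of_mem hl))
    rw [this]
    simp [hy0, hb'j]
  obtain ⟨c, d, h⟩ := span_all hf hn2 hc hJ hk0 hb x hxN (Pi.single j 1)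
  have := congrFun h j
  simp only [Pi.single_eq_same, Pi.add_apply, Finset.sum_apply, Pi.smul_apply, smul_eq_mul,
    hbj] at this
  rw [Finset.sum_eq_zero (fun i hi => by rw [hxall i hi]; ring)] at this
  norm_num at this

end

theorem not_hyp {f : ι → ((Fin n → ℝ) →ₗ[ℝ] ℝ)} (hn : 7 ≤ n)
    (hc : Fintype.card ι = 2 * n - 2) : ¬ Hyp f := by
  intro hf
  have hex : ∀ J : Finset ι, ∃ x : Fin n → ℝ, J.card = n - 1 → IsN f J x := by
    intro J
    by_cases hJ : J.card = n - 1
    · obtain ⟨x, h1, h2⟩ := exists_zero_on f J (by omega)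
      exact ⟨x, fun _ => ⟨h1, h2⟩⟩
    · exact ⟨0, fun h => absurd h hJ⟩
  choose p hp using hex
  obtain ⟨M, -, hM⟩ := Finset.exists_subset_card_eq (s := (Finset.univ : Finset ι)) (n := n - 2)
    (by rw [Finset.card_univ, hc]; omega)
  have hMc : (Mᶜ).card = n := by rw [Finset.card_compl, hc, hM]; omega
  set Z : ι → Finset (Fin n) := fun i => Finset.univ.filter fun j => p (insert i M) j = 0 with hZ
  have hcard : ∀ i ∈ Mᶜ, (insert i M).card = n - 1 := by
    intro i hi
    rw [Finset.card_insert_of_notMem (Finset.mem_compl.1 hi)]; omega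
  have hZ2 : ∀ i ∈ Mᶜ, 2 ≤ (Z i).card := by
    intro i hi
    have h1 := support_le_five hf (by omega) hc p hp (hcard i hi)
    have h2 := Finset.card_filter_add_card_filter_not (s := (Finset.univ : Finset (Fin n)))
      (fun j => p (insert i M) j = 0)
    simp only [Finset.card_univ, Fintype.card_fin] at h2
    have h3 : (Finset.univ.filter fun j => ¬ p (insert i M) j = 0).card ≤ 5 := h1
    show 2 ≤ (Finset.univ.filter fun j => p (insert i M) j = 0).card
    omega
  have hdisj : ((Mᶜ : Finset ι) : Set ι).PairwiseDisjoint Z := by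
    intro i hi k hk hik
    have hi' : i ∉ M := Finset.mem_compl.1 hi
    have hk' : k ∉ M := Finset.mem_compl.1 hk
    rw [Function.onFun, Finset.disjoint_left]
    intro j hj1 hj2
    have h1 : p (insert i M) j = 0 := (Finset.mem_filter.1 hj1).2
    have h2 : p (insert k M) j = 0 := (Finset.mem_filter.1 hj2).2
    have := no_common_zero hf (by omega) hc p hp (hcard i hi) (i0 := i) (k0 := k) (by simp)
      (by simp [hk', Ne.symm hik]) h1
    rw [Finset.erase_insert hi'] at this
    exact this h2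
  have h1 := Finset.card_biUnion hdisj
  have h2 : (Mᶜ.biUnion Z).card ≤ n := by
    simpa using Finset.card_le_univ (Mᶜ.biUnion Z)
  have h3 : ∑ i ∈ Mᶜ, 2 ≤ ∑ i ∈ Mᶜ, (Z i).card := Finset.sum_le_sum hZ2
  rw [Finset.sum_const, hMc, smul_eq_mul] at h3
  omega

end Pool.Agent.Lib.MP_eac85a_an
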