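import Pool.Agent.Lib.MP_eac85a_an.Core

/-!
Six lines of four-dimensional space do not do weak phase retrieval.
-/

namespace Pool.Agent.Lib.MP_eac85a_an

open Finset Module

variable {n : ℕ} {ι : Type} [Fintype ι] [DecidableEq ι]

section
variable {f : ι → ((Fin n → ℝ) →ₗ[ℝ] ℝ)} (hf : Hyp f) (hn : 2 ≤ n)
  (hc : Fintype.card ι = 2 * n - 2) (p : Finset ι → (Fin n → ℝ))
  (hp : ∀ J : Finset ι, J.card = n - 1 → IsN f J (p J))
include hf hn hc hp

omit hf hp in
lemma card_ins {M : Finset ι} (hM : M.card = n - 2) {i : ι} (hi : i ∉ M) :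
    (insert i M).card = n - 1 ∧ (insert i M)ᶜ.card = n - 1 := by
  rw [card_compl, card_insert_of_notMem hi]
  omega

omit hf hp in
lemma other {M : Finset ι} (hM : M.card = n - 2) (i : ι) : ∃ k, k ∉ M ∧ k ≠ i := by
  have : 1 < Mᶜ.card := by rw [card_compl]; omega
  obtain ⟨k, h1, h2⟩ := exists_mem_ne this i
  exact ⟨k, mem_compl.1 h1, h2⟩

/-- a functional that vanishes at a vertex of a line is a multiple of the frame functional -/
lemma prop_of_zero {M : Finset ι} (hM : M.card = n - 2) {i : ι} (hi : i ∉ M)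
    (θ : (Fin n → ℝ) →ₗ[ℝ] ℝ) (h0 : θ (p (insert i M)) = 0) :
    ∃ c : ℝ, ∀ u, (∀ m ∈ M, f m u = 0) → θ u = c * f i u := by
  obtain ⟨k, hk, hki⟩ := other hn hc hM i
  refine ⟨θ (p (insert k M)) / f i (p (insert k M)), fun u hu => ?_⟩
  have := comb_two hf hn hc hM hi hk hki.symm (hp _ (card_ins hn hc hM hi).1)
    (hp _ (card_ins hn hc hM hk).1) hu
  conv_lhs => rw [this]
  simp only [map_add, map_smul, smul_eq_mul, h0]
  ring

lemma dual_ne {M : Finset ι} (hM : M.card = n - 2) {k : ι} (hk : k ∉ M) :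
    f k (p (insert k M)ᶜ) ≠ 0 :=
  ne_zero_of_notMem hf hn hc (card_ins hn hc hM hk).2 (hp _ (card_ins hn hc hM hk).2) (by simp)

lemma expand {M : Finset ι} (hM : M.card = n - 2) (θ : (Fin n → ℝ) →ₗ[ℝ] ℝ) (y : Fin n → ℝ) :
    θ y = ∑ k ∈ Mᶜ, θ (p (insert k M)ᶜ) / f k (p (insert k M)ᶜ) * f k y := by
  have := full_spark hf hn hc Mᶜ (by rw [card_compl]; omega)
    (y - ∑ k ∈ Mᶜ, (f k y / f k (p (insert k M)ᶜ)) • p (insert k M)ᶜ) fun l hl => by
      rw [map_sub, map_sum, sum_eq_single_of_mem l hl fun k hk hkl => ?_]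
      · have := dual_ne hf hn hc p hp hM (mem_compl.1 hl)
        rw [map_smul, smul_eq_mul]
        field_simp
        ring
      · rw [map_smul, (hp _ (card_ins hn hc hM (mem_compl.1 hk)).2).2 l
          (by simp [hkl.symm, mem_compl.1 hl]), smul_zero]
  conv_lhs => rw [sub_eq_zero.1 this, map_sum]
  exact sum_congr rfl fun k _ => by rw [map_smul, smul_eq_mul]; ring

/-- structure of a symmetric form that vanishes on the pairs of one line -/
lemma struct (β : (Fin n → ℝ) →ₗ[ℝ] (Fin n → ℝ) →ₗ[ℝ] ℝ) (hs : ∀ x y, β x y = β y x)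
    {M : Finset ι} (hM : M.card = n - 2) {i0 : ι} (hi0 : i0 ∉ M)
    (hz : ∀ i ∉ M, i ≠ i0 → β (p (insert i M)) (p (insert i M)ᶜ) = 0) :
    ∃ lam : ι → ℝ, ∀ x, (∀ m ∈ M, f m x = 0) → ∀ y, β x y = ∑ k ∈ Mᶜ, lam k * f k x * f k y := by
  have hL : ∀ i ∉ M, ∀ m ∈ M, f m (p (insert i M)) = 0 := fun i hi m hm =>
    (hp _ (card_ins hn hc hM hi).1).2 m (mem_insert_of_mem hm)
  have h0 : β (p (insert i0 M)) (p (insert i0 M)ᶜ) = 0 := by
    obtain ⟨k, hk, hki⟩ := other hn hc hM i0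
    have e := hs (p (insert i0 M)) (p (insert k M))
    rw [expand hf hn hc p hp hM (β _), expand hf hn hc p hp hM (β (p (insert k M))),
      ← add_sum_erase _ _ (mem_compl.2 hi0), ← add_sum_erase _ _ (mem_compl.2 hi0),
      (hp _ (card_ins hn hc hM hi0).1).2 i0 (mem_insert_self _ _), mul_zero, zero_add,
      sum_congr rfl (g := fun l => β (p (insert k M)) (p (insert l M)ᶜ) / f l (p (insert l M)ᶜ) *
        f l (p (insert i0 M))), add_eq_right] at e
    · have h1 := dual_ne hf hn hc p hp hM hi0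
      have h2 := ne_zero_of_notMem hf hn hc (card_ins hn hc hM hk).1
        (hp _ (card_ins hn hc hM hk).1) (k := i0) (by simp [hi0, hki.symm])
      exact (div_eq_zero_iff.1 ((mul_eq_zero.1 e).resolve_right h2)).resolve_right h1
    · intro l hl
      obtain ⟨l1, l2⟩ := mem_erase.1 hl
      obtain ⟨c, h⟩ := prop_of_zero hf hn hc p hp hM (mem_compl.1 l2) (β.flip (p (insert l M)ᶜ))
        (hz l (mem_compl.1 l2) l1)
      have a1 := h _ (hL i0 hi0)
      have a2 := h _ (hL k hk)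
      rw [LinearMap.flip_apply] at a1 a2
      rw [a1, a2]
      ring
  have h1 : ∀ i, ∃ c : ℝ, i ∉ M → ∀ u, (∀ m ∈ M, f m u = 0) → β u (p (insert i M)ᶜ) = c * f i u := by
    intro i
    by_cases hi : i ∈ M
    · exact ⟨0, fun h => absurd hi h⟩
    · obtain ⟨c, h⟩ := prop_of_zero hf hn hc p hp hM hi (β.flip (p (insert i M)ᶜ))
        (by by_cases e : i = i0; exacts [e ▸ h0, hz i hi e])
      exact ⟨c, fun _ => h⟩
  choose c hc' using h1
  refine ⟨fun k => c k / f k (p (insert k M)ᶜ), fun x hx y => ?_⟩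
  rw [expand hf hn hc p hp hM (β x)]
  exact sum_congr rfl fun k hk => by rw [hc' k (mem_compl.1 hk) x hx]; ring

/-- one more zero kills the form on all pairs -/
lemma all_zero (β : (Fin n → ℝ) →ₗ[ℝ] (Fin n → ℝ) →ₗ[ℝ] ℝ) (hs : ∀ x y, β x y = β y x)
    {a b : ι} {lam : ι → ℝ} (h : ∀ x, (∀ m ∈ ({a, b} : Finset ι), f m x = 0) → ∀ y,
      β x y = ∑ k ∈ ({a, b} : Finset ι)ᶜ, lam k * f k x * f k y)
    {K : Finset ι} (hK : K.card = n - 1) (ha : a ∈ K) (hb : b ∉ K) (hz : β (p K) (p Kᶜ) = 0)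
    (J : Finset ι) (hJ : J.card = n - 1) : β (p J) (p Jᶜ) = 0 := by
  have cc : ∀ J : Finset ι, J.card = n - 1 → Jᶜ.card = n - 1 := fun J hJ => by
    rw [card_compl]; omega
  let γ : (Fin n → ℝ) → (Fin n → ℝ) → ℝ := fun x y =>
    β x y - ∑ k ∈ ({a, b} : Finset ι)ᶜ, lam k * f k x * f k y
  have g0 : ∀ J : Finset ι, J.card = n - 1 → γ (p J) (p Jᶜ) = β (p J) (p Jᶜ) := fun J hJ => by
    refine sub_eq_self.2 (sum_eq_zero fun k _ => ?_)
    by_cases hk : k ∈ J
    · rw [(hp J hJ).2 k hk]; ring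
    · rw [(hp _ (cc J hJ)).2 k (mem_compl.2 hk)]; ring
  have g1 : ∀ x y, γ x y = γ y x := fun x y => by
    simp only [γ, hs x y]
    congr 1
    exact sum_congr rfl fun k _ => by ring
  have g2 : ∀ x y, f a x = 0 → f b x = 0 → γ x y = 0 := fun x y h1 h2 =>
    sub_eq_zero.2 (h x (by simp [h1, h2]) y)
  have g3 : ∀ x x' y (c : ℝ), γ x y = γ (x - c • x') y + c * γ x' y := fun x x' y c => by
    simp only [γ, map_sub, map_smul, LinearMap.sub_apply, LinearMap.smul_apply, smul_eq_mul,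
      mul_sub, sub_mul, sum_sub_distrib, mul_sum]
    have : ∑ k ∈ ({a, b} : Finset ι)ᶜ, lam k * (c * f k x') * f k y =
      ∑ k ∈ ({a, b} : Finset ι)ᶜ, c * (lam k * f k x' * f k y) := sum_congr rfl fun k _ => by ring
    rw [this]
    ring
  have sep : ∀ J : Finset ι, J.card = n - 1 → a ∈ J → b ∉ J → γ (p J) (p Jᶜ) = 0 := by
    intro J hJ ha' hb'
    have n1 := ne_zero_of_notMem hf hn hc hK (hp K hK) hb
    have n2 := ne_zero_of_notMem hf hn hc (cc K hK) (hp _ (cc K hK)) (k := a) (by simpa using ha)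
    rw [g3 _ (p K) _ (f b (p J) / f b (p K)), g2, g1, g3 _ (p Kᶜ) _ (f a (p Jᶜ) / f a (p Kᶜ)), g2,
      g1, g0 K hK, hz]
    · ring
    · rw [map_sub, map_smul, smul_eq_mul]; field_simp; ring
    · rw [map_sub, map_smul, (hp _ (cc J hJ)).2 b (mem_compl.2 hb'),
        (hp _ (cc K hK)).2 b (mem_compl.2 hb)]; simp
    · rw [map_sub, map_smul, (hp J hJ).2 a ha', (hp K hK).2 a ha]; simp
    · rw [map_sub, map_smul, smul_eq_mul]; field_simp; ring
  rw [← g0 J hJ]
  by_cases h1 : a ∈ J <;> by_cases h2 : b ∈ J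
  · exact g2 _ _ ((hp J hJ).2 a h1) ((hp J hJ).2 b h2)
  · exact sep J hJ h1 h2
  · have := sep Jᶜ (cc J hJ) (mem_compl.2 h1) (by simpa using h2)
    rwa [compl_compl, g1] at this
  · rw [g1]
    exact g2 _ _ ((hp _ (cc J hJ)).2 a (mem_compl.2 h1)) ((hp _ (cc J hJ)).2 b (mem_compl.2 h2))

/-- complementary normals differ by a non-constant choice of signs -/
lemma signs {J : Finset ι} (hJ : J.card = n - 1) : ∃ (m : ℝ) (ε : Fin n → Bool), m ≠ 0 ∧
    (∀ j, p Jᶜ j = (if ε j then m else -m) * p J j) ∧ (∃ j, ε j = true) ∧ ∃ j, ε j = false := by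
  have hJc : Jᶜ.card = n - 1 := by rw [card_compl]; omega
  obtain ⟨μ, hμ, h⟩ := sq_prop hf (hp J hJ) (hp _ hJc)
  obtain ⟨j0, hj0⟩ := Function.ne_iff.1 (hp J hJ).1
  have h0 : 0 ≤ μ := by
    have h1 : p Jᶜ j0 * p Jᶜ j0 = μ * (p J j0 * p J j0) := congrFun h j0
    have h2 : 0 < p J j0 * p J j0 := mul_self_pos.2 hj0
    nlinarith [mul_self_nonneg (p Jᶜ j0)]
  have hm : √μ ≠ 0 := fun e => hμ (by rw [← Real.mul_self_sqrt h0, e, mul_zero])
  have key : ∀ j, p Jᶜ j = (if decide (p Jᶜ j = √μ * p J j) then √μ else -√μ) * p J j := fun j => by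
    have h1 : p Jᶜ j * p Jᶜ j = μ * (p J j * p J j) := congrFun h j
    have h2 : p Jᶜ j * p Jᶜ j = (√μ * p J j) * (√μ * p J j) := by
      rw [h1, mul_mul_mul_comm, Real.mul_self_sqrt h0]
    by_cases e : p Jᶜ j = √μ * p J j
    · simp [e]
    · simpa [e] using (mul_self_eq_mul_self_iff.1 h2).resolve_left e
  have nc : ∀ c : ℝ, c ≠ 0 → p Jᶜ ≠ c • p J := fun c hc0 e => by
    obtain ⟨k, hk⟩ := card_pos.1 (show 0 < Jᶜ.card by omega)
    have h1 := (hp _ hJc).2 k hk
    rw [e, map_smul, smul_eq_mul] at h1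
    exact mul_ne_zero hc0 (ne_zero_of_notMem hf hn hc hJ (hp J hJ) (mem_compl.1 hk)) h1
  refine ⟨√μ, _, hm, key, ?_, ?_⟩ <;> by_contra! hh
  · exact nc (-√μ) (neg_ne_zero.2 hm) (funext fun j => by rw [key j, if_neg (hh j)]; rfl)
  · exact nc √μ hm (funext fun j => by rw [key j, if_pos (by simpa using hh j)]; rfl)

end

/-- the ten splittings of six indices in two triples -/
def sp : Fin 10 → Finset (Fin 6) := ![{0, 1, 2}, {0, 1, 3}, {0, 1, 4}, {0, 1, 5}, {0, 2, 3},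
  {0, 2, 4}, {0, 2, 5}, {0, 3, 4}, {0, 3, 5}, {0, 4, 5}]

/-- the splitting that belongs to a triple -/
def ix (a b c : Fin 6) : Fin 10 :=
  ((List.finRange 10).find? fun s => (a ∈ sp s ↔ b ∈ sp s) ∧ (a ∈ sp s ↔ c ∈ sp s)).getD 0

lemma sp_card : ∀ s, (sp s).card = 4 - 1 := by decide +kernel

lemma sp_ix : ∀ a b i : Fin 6, a ≠ b → i ∉ ({a, b} : Finset (Fin 6)) →
    sp (ix a b i) = insert i {a, b} ∨ (sp (ix a b i))ᶜ = insert i {a, b} := by decide +kernel

lemma five : ∀ Z : Finset (Fin 10), 5 ≤ Z.card → ∃ a b : Fin 6, a ≠ b ∧ (∃ s ∈ Z, a ∈ sp s ∧ b ∉ sp s) ∧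
    ∃ i0 ∉ ({a, b} : Finset (Fin 6)), ∀ i ∉ ({a, b} : Finset (Fin 6)), i ≠ i0 → ix a b i ∈ Z := by
  decide +kernel

lemma duad : ∀ J : Finset (Fin 6), J.card = 4 - 1 → ∃ a b : Fin 6, a ≠ b ∧
    ∀ i ∉ ({a, b} : Finset (Fin 6)), (∃ c ∈ J, ∃ d ∉ J, insert i {a, b} = insert d (J.erase c)) ∨
      ∃ c ∈ Jᶜ, ∃ d ∉ Jᶜ, insert i {a, b} = insert d (Jᶜ.erase c) := by
  decide +kernel

lemma six_pairs : ∀ ε : Fin 4 → Bool, (∃ j, ε j = true) → (∃ j, ε j = false) →
    6 ≤ (univ.filter fun x : Fin 4 × Fin 4 => ε x.1 ≠ ε x.2).card := by decide +kernel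

/-- the symmetric form of the product of two coordinates -/
noncomputable def bl (j l : Fin n) : (Fin n → ℝ) →ₗ[ℝ] (Fin n → ℝ) →ₗ[ℝ] ℝ :=
  LinearMap.mk₂ ℝ (fun x y => x j * y l + x l * y j) (fun _ _ _ => by simp; ring)
    (fun _ _ _ => by simp; ring) (fun _ _ _ => by simp; ring) fun _ _ _ => by simp; ring

lemma bl_apply (j l : Fin n) (x y : Fin n → ℝ) : bl j l x y = x j * y l + x l * y j := rfl

section
variable {f : Fin 6 → ((Fin 4 → ℝ) →ₗ[ℝ] ℝ)} (hf : Hyp f) (p : Finset (Fin 6) → (Fin 4 → ℝ))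
  (hp : ∀ J : Finset (Fin 6), J.card = 4 - 1 → IsN f J (p J))
include hf hp

lemma five_zero (β : (Fin 4 → ℝ) →ₗ[ℝ] (Fin 4 → ℝ) →ₗ[ℝ] ℝ) (hs : ∀ x y, β x y = β y x)
    (h5 : 5 ≤ (univ.filter fun s => β (p (sp s)) (p (sp s)ᶜ) = 0).card) (J : Finset (Fin 6))
    (hJ : J.card = 4 - 1) : β (p J) (p Jᶜ) = 0 := by
  obtain ⟨a, b, hab, ⟨s, h1, h2, h3⟩, i0, h4, h6⟩ := five _ h5
  obtain ⟨lam, h⟩ := struct hf (by norm_num) (by simp) p hp β hs (M := {a, b}) (card_pair hab) h4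
    fun i hi hi' => by
      have := (mem_filter.1 (h6 i hi hi')).2
      rcases sp_ix a b i hab hi with e | e
      · rwa [e] at this
      · rwa [← e, compl_compl, hs]
  exact all_zero hf (by norm_num) (by simp) p hp β hs h (sp_card s) h2 h3 (mem_filter.1 h1).2 J hJ

lemma free_line (k : Fin 4) : ∃ a b : Fin 6, a ≠ b ∧
    ∀ i ∉ ({a, b} : Finset (Fin 6)), p (insert i {a, b}) k ≠ 0 := by
  by_cases h : ∃ J : Finset (Fin 6), J.card = 4 - 1 ∧ p J k = 0
  · obtain ⟨J, hJ, h0⟩ := h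
    obtain ⟨m, ε, -, h1, -⟩ := signs hf (by norm_num) (by simp) p hp hJ
    obtain ⟨a, b, hab, h2⟩ := duad J hJ
    refine ⟨a, b, hab, fun i hi => ?_⟩
    rcases h2 i hi with ⟨c, c1, d, d1, e⟩ | ⟨c, c1, d, d1, e⟩ <;> rw [e]
    · exact no_common_zero hf le_rfl (by simp) p hp hJ c1 d1 h0
    · exact no_common_zero hf le_rfl (by simp) p hp (by rw [card_compl, hJ]; rfl) c1 d1
        (by rw [h1, h0, mul_zero])
  · exact ⟨0, 1, by decide, fun i hi e =>
      h ⟨_, (card_ins (n := 4) (by norm_num) (by simp) (by decide) hi).1, e⟩⟩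

lemma not_two {k l j : Fin 4} (hkl : k ≠ l) (hkj : k ≠ j) (hlj : l ≠ j)
    (h1 : ∀ J : Finset (Fin 6), J.card = 4 - 1 → bl k l (p J) (p Jᶜ) = 0)
    (h2 : ∀ J : Finset (Fin 6), J.card = 4 - 1 → bl k j (p J) (p Jᶜ) = 0) : False := by
  obtain ⟨a, b, hab, hk⟩ := free_line hf p hp k
  have hM : ({a, b} : Finset (Fin 6)).card = 4 - 2 := card_pair hab
  have hc : Fintype.card (Fin 6) = 2 * 4 - 2 := by simp
  obtain ⟨w, w0, hw⟩ := exists_common_zero (n := 4) ![f a, f b, LinearMap.proj k] (by simp)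
  have wM : ∀ m ∈ ({a, b} : Finset (Fin 6)), f m w = 0 := by simpa using ⟨hw 0, hw 1⟩
  have wk : w k = 0 := hw 2
  obtain ⟨s, t, hst, h0⟩ : ∃ s t : ℝ, (s ≠ 0 ∨ t ≠ 0) ∧ s * w l + t * w j = 0 := by
    by_cases e : w l = 0
    · exact ⟨1, 0, Or.inl one_ne_zero, by simp [e]⟩
    · exact ⟨w j, -w l, Or.inr (neg_ne_zero.2 e), by ring⟩
  obtain ⟨i0, hi0, -⟩ := other (n := 4) (by norm_num) hc hM a
  obtain ⟨lam, h⟩ := struct hf (by norm_num) hc p hp (s • bl k l + t • bl k j)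
    (fun x y => by simp [bl_apply]; ring) hM hi0 fun i hi _ => by
      have := (card_ins (n := 4) (by norm_num) hc hM hi).1
      rw [LinearMap.add_apply, LinearMap.add_apply, LinearMap.smul_apply, LinearMap.smul_apply,
        LinearMap.smul_apply, LinearMap.smul_apply, h1 _ this, h2 _ this]
      simp
  have l0 : ∀ i ∈ ({a, b} : Finset (Fin 6))ᶜ, lam i = 0 := fun i hi => by
    have hi' := mem_compl.1 hi
    have e := h w wM (p (insert i {a, b})ᶜ)
    rw [sum_eq_single_of_mem i hi fun c c1 c2 => by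
      rw [(hp _ (card_ins (n := 4) (by norm_num) hc hM hi').2).2 c
        (mem_compl.2 fun x => (mem_insert.1 x).elim c2 (mem_compl.1 c1)), mul_zero]] at e
    have e1 : (s • bl k l + t • bl k j) w (p (insert i {a, b})ᶜ) = 0 := by
      simp only [LinearMap.add_apply, LinearMap.smul_apply, bl_apply, smul_eq_mul, wk]
      linear_combination p (insert i {a, b})ᶜ k * h0
    have e2 : f i w ≠ 0 := fun e2 => by
      obtain ⟨c, c1, c2⟩ := other (n := 4) (by norm_num) hc hM i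
      have := comb_two hf (by norm_num) hc hM hi' c1 c2.symm
        (hp _ (card_ins (n := 4) (by norm_num) hc hM hi').1)
        (hp _ (card_ins (n := 4) (by norm_num) hc hM c1).1) wM
      rw [e2, zero_div, zero_smul, add_zero] at this
      have e3 := congrFun this k
      rw [wk, Pi.smul_apply, smul_eq_mul, eq_comm, mul_eq_zero] at e3
      rw [e3.resolve_right (hk i hi'), zero_smul] at this
      exact w0 this
    rw [e1, eq_comm] at e
    exact (mul_eq_zero.1 ((mul_eq_zero.1 e).resolve_right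
      (dual_ne hf (by norm_num) hc p hp hM hi'))).resolve_right e2
  have e := fun y => (h (p (insert i0 {a, b})) (fun m hm =>
    (hp _ (card_ins (n := 4) (by norm_num) hc hM hi0).1).2 m (mem_insert_of_mem hm)) y).trans
    (sum_eq_zero fun i hi => by rw [l0 i hi]; ring)
  have e1 := e (Pi.single l 1)
  have e2 := e (Pi.single j 1)
  have e3 := hk i0 hi0
  simp only [LinearMap.add_apply, LinearMap.smul_apply, bl_apply, smul_eq_mul, Pi.single_eq_same,
    Pi.single_eq_of_ne hkl, Pi.single_eq_of_ne hkj, Pi.single_eq_of_ne hlj,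
    Pi.single_eq_of_ne hlj.symm, mul_zero, mul_one, add_zero, zero_add] at e1 e2
  rcases hst with e4 | e4
  · exact mul_ne_zero e4 e3 e1
  · exact mul_ne_zero e4 e3 e2

lemma four_false : False := by
  choose m ε hm h1 h2 h3 using fun s => signs hf (by norm_num) (by simp) p hp (sp_card s)
  have sy : ∀ (j l : Fin 4) x y, bl j l x y = bl j l y x := fun j l x y => by
    simp only [bl_apply]; ring
  obtain ⟨k, l, hkl⟩ : ∃ k l : Fin 4, 5 ≤ (univ.filter fun s => ε s k ≠ ε s l).card := by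
    by_contra! hh
    have a1 : ∑ s : Fin 10, 6 ≤ ∑ s, (univ.filter fun x : Fin 4 × Fin 4 => ε s x.1 ≠ ε s x.2).card :=
      sum_le_sum fun s _ => six_pairs _ (h2 s) (h3 s)
    have a2 : ∑ x : Fin 4 × Fin 4, (univ.filter fun s => ε s x.1 ≠ ε s x.2).card ≤
        ∑ x : Fin 4 × Fin 4, if x.1 = x.2 then 0 else 4 := sum_le_sum fun x _ => by
      split_ifs with e
      · simp [e]
      · exact Nat.lt_succ_iff.1 (hh _ _)
    simp only [card_filter] at a1 a2
    rw [sum_comm] at a1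
    exact absurd (a1.trans a2) (by decide)
  have hne : k ≠ l := fun e => by simp [e] at hkl
  have z1 := five_zero hf p hp (bl k l) (sy k l) (hkl.trans (card_le_card fun s hs => by
    have := (mem_filter.1 hs).2
    refine mem_filter.2 ⟨mem_univ _, ?_⟩
    rw [bl_apply, h1, h1]
    cases e1 : ε s k <;> cases e2 : ε s l <;> simp_all <;> ring))
  obtain ⟨j, hjk, hjl⟩ := (by decide : ∀ k l : Fin 4, ∃ j : Fin 4, k ≠ j ∧ l ≠ j) k l
  have un : (univ.filter fun s => bl k j (p (sp s)) (p (sp s)ᶜ) = 0) ∪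
      (univ.filter fun s => bl l j (p (sp s)) (p (sp s)ᶜ) = 0) = univ := by
    refine eq_univ_of_forall fun s => ?_
    have a0 := z1 _ (sp_card s)
    have a1 := hm s
    simp only [mem_union, mem_filter, mem_univ, true_and]
    rw [bl_apply, h1, h1] at a0 ⊢
    rw [bl_apply, h1, h1]
    have a2 : ∀ x y : ℝ, x * (m s * y) + y * (m s * x) = 0 → x = 0 ∨ y = 0 := fun x y e =>
      mul_eq_zero.1 (mul_left_cancel₀ (mul_ne_zero two_ne_zero a1) (by linear_combination e))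
    have a3 : ∀ x y : ℝ, x * (-m s * y) + y * (-m s * x) = 0 → x = 0 ∨ y = 0 := fun x y e =>
      a2 x y (by linear_combination -e)
    cases e1 : ε s k <;> cases e2 : ε s l <;> cases e3 : ε s j <;>
      simp only [e1, e2, Bool.false_eq_true, if_true, if_false] at a0 ⊢
    · exact (a3 _ _ a0).imp (fun e => by simp [e]) fun e => by simp [e]
    · left; ring
    · right; ring
    · left; ring
    · left; ring
    · right; ring
    · left; ring
    · exact (a2 _ _ a0).imp (fun e => by simp [e]) fun e => by simp [e]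
  have := card_union_le (univ.filter fun s => bl k j (p (sp s)) (p (sp s)ᶜ) = 0)
    (univ.filter fun s => bl l j (p (sp s)) (p (sp s)ᶜ) = 0)
  rw [un, card_univ, Fintype.card_fin] at this
  rcases le_or_gt 5 (univ.filter fun s => bl k j (p (sp s)) (p (sp s)ᶜ) = 0).card with e | e
  · exact not_two hf p hp hne hjk hjl z1 (five_zero hf p hp _ (sy k j) e)
  · exact not_two hf p hp hne.symm hjl hjk (fun J hJ => by rw [← z1 J hJ, bl_apply, bl_apply, add_comm])
      (five_zero hf p hp _ (sy l j) (by omega))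

end

end Pool.Agent.Lib.MP_eac85a_an
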